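import Pool.Agent.J6H65.SG.Pr

/-!
Quotients of values of a polynomial at the zeros of a polynomial with full symmetric Galois group, over
extensions of the ground field.
-/

set_option autoImplicit false
set_option linter.all false

open Polynomial
open scoped Classical

namespace Pool.Agent.J6H65.SG

open Pool.Agent.X243.Gen Pool.Agent.X243.Sol Pool.Agent.X243.Tate

section perm

variable {Z : Type} [Fintype Z] [DecidableEq Z]

/-- an even permutation with two given values -/
theorem even_two (h : 4 ≤ Fintype.card Z) {a b a' b' : Z} (hab : a ≠ b) (hab' : a' ≠ b') :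
    ∃ c ∈ alternatingGroup Z, c a = a' ∧ c b = b' := by
  obtain ⟨c, hc⟩ : ∃ c : Equiv.Perm Z, c = Equiv.swap (Equiv.swap a a' b) b' * Equiv.swap a a' :=
    ⟨_, rfl⟩
  have h1 : c a = a' := by
    rw [hc, Equiv.Perm.mul_apply, Equiv.swap_apply_left]
    apply Equiv.swap_apply_of_ne_of_ne
    · intro h2
      apply hab
      have h3 : Equiv.swap a a' a = Equiv.swap a a' b := by rw [Equiv.swap_apply_left]; exact h2
      exact (Equiv.swap a a').injective h3
    · exact hab'
  have h2 : c b = b' := by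
    rw [hc, Equiv.Perm.mul_apply, Equiv.swap_apply_left]
  rcases Int.units_eq_one_or (Equiv.Perm.sign c) with hs | hs
  · exact ⟨c, Equiv.Perm.mem_alternatingGroup.2 hs, h1, h2⟩
  · obtain ⟨u, hu⟩ : ∃ u, u ∉ ({a', b'} : Finset Z) := by
      by_contra hall
      push Not at hall
      have h3 := Finset.card_le_card (fun x _ => hall x : (Finset.univ : Finset Z) ⊆ _)
      have h4 := Finset.card_le_two (a := a') (b := b')
      rw [Finset.card_univ] at h3
      omega
    obtain ⟨v, hv⟩ : ∃ v, v ∉ ({a', b', u} : Finset Z) := by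
      by_contra hall
      push Not at hall
      have h3 := Finset.card_le_card (fun x _ => hall x : (Finset.univ : Finset Z) ⊆ _)
      have h4 := Finset.card_le_three (a := a') (b := b') (c := u)
      rw [Finset.card_univ] at h3
      omega
    simp only [Finset.mem_insert, Finset.mem_singleton, not_or] at hu hv
    refine ⟨Equiv.swap u v * c, ?_, ?_, ?_⟩
    · rw [Equiv.Perm.mem_alternatingGroup, map_mul, hs, Equiv.Perm.sign_swap (Ne.symm hv.2.2)]
      rfl
    · rw [Equiv.Perm.mul_apply, h1]
      exact Equiv.swap_apply_of_ne_of_ne (Ne.symm hu.1) (Ne.symm hv.1)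
    · rw [Equiv.Perm.mul_apply, h2]
      exact Equiv.swap_apply_of_ne_of_ne (Ne.symm hu.2) (Ne.symm hv.2.1)

end perm

section ext

variable {k : Type} [Field k] {F : k[X]} {L L' : Type} [Field L] [Field L'] [Algebra k L]
  [Algebra L L'] [Algebra k L'] [IsScalarTower k L L'] [IsSepClosure L L']

/-- Even permutations of the roots are induced by the Galois group over `L`. -/
theorem alt_L (hF : F.Separable) (h5 : 5 ≤ F.natDegree) (hfull : FullG F)
    (M : IntermediateField k L') [Normal k M]
    (hM : ∀ x : L, IsSeparable k x → algebraMap L L' x ∈ M)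
    (hns : ¬ (F.map (algebraMap k M)).Splits) {x y x' y' : L'} (hx : x ∈ F.rootSet L')
    (hy : y ∈ F.rootSet L') (hx' : x' ∈ F.rootSet L') (hy' : y' ∈ F.rootSet L') (hxy : x ≠ y)
    (hxy' : x' ≠ y') : ∃ g : L' ≃ₐ[L] L', g x = x' ∧ g y = y' := by
  haveI : IsSepClosed L' := IsSepClosure.sep_closed L
  haveI : IsGalois L L' := IsSepClosure.isGalois
  have hsp := SplittingField.splits F
  haveI : FiniteDimensional k F.SplittingField := inferInstance
  haveI : IsGalois k F.SplittingField := IsGalois.of_separable_splitting_field hF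
  obtain ⟨i, -⟩ : ∃ i : F.SplittingField →ₐ[k] L', i = i := ⟨IsSepClosed.lift, rfl⟩
  letI : Algebra F.SplittingField L' := i.toRingHom.toAlgebra
  haveI : IsScalarTower k F.SplittingField L' :=
    IsScalarTower.of_algebraMap_eq fun x => (i.commutes x).symm
  have hsurj := hfull F.SplittingField hsp
  have hcard : Nat.card (F.rootSet F.SplittingField) = F.natDegree := by
    rw [Nat.card_eq_fintype_card, card_rootSet_eq_natDegree hF hsp]
  have hZ : F.rootSet L' = (algebraMap F.SplittingField L') '' F.rootSet F.SplittingField := by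
    rw [hsp.image_rootSet_algebraMap]
  rw [hZ] at hx hy hx' hy'
  obtain ⟨x, hx, rfl⟩ := hx
  obtain ⟨y, hy, rfl⟩ := hy
  obtain ⟨x', hx', rfl⟩ := hx'
  obtain ⟨y', hy', rfl⟩ := hy'
  obtain ⟨c, hc, c1, c2⟩ := even_two (Z := F.rootSet F.SplittingField)
    (by rw [← Nat.card_eq_fintype_card, hcard]; omega)
    (a := ⟨x, hx⟩) (b := ⟨y, hy⟩) (a' := ⟨x', hx'⟩) (b' := ⟨y', hy'⟩)
    (fun h => hxy (by rw [Subtype.mk.inj h])) (fun h => hxy' (by rw [Subtype.mk.inj h]))
  obtain ⟨σ, hσ, hcσ⟩ := even_fix (F := F) (E := F.SplittingField) (L' := L') hsp hsurj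
      (by rw [hcard]; exact h5) M hns c hc
  obtain ⟨g, hg⟩ := lift_fix' (L := L) (L' := L') M hM hσ
  refine ⟨g, ?_, ?_⟩
  · rw [hg]
    congr 1
    have h1 := congrArg (fun z : F.rootSet F.SplittingField => (z : F.SplittingField)) c1
    rw [← hcσ] at h1
    exact h1
  · rw [hg]
    congr 1
    have h1 := congrArg (fun z : F.rootSet F.SplittingField => (z : F.SplittingField)) c2
    rw [← hcσ] at h1
    exact h1

/-- Constants which are powers modulo the polynomial. -/
theorem const_L (hF : F.Separable) (h5 : 5 ≤ F.natDegree) (hfull : FullG F)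
    (M : IntermediateField k L') [Normal k M]
    (hM : ∀ x : L, IsSeparable k x → algebraMap L L' x ∈ M)
    (hns : ¬ (F.map (algebraMap k M)).Splits) {ℓ : ℕ} (hℓ : ℓ ≠ 0) {c : L} {a : L[X]}
    (hca : F.map (algebraMap k L) ∣ C c - a ^ ℓ) (hζ : ∃ ζ : L, IsPrimitiveRoot ζ ℓ) :
    ∃ b : L, c = b ^ ℓ := by
  haveI : IsSepClosed L' := IsSepClosure.sep_closed L
  haveI : IsGalois L L' := IsSepClosure.isGalois
  obtain ⟨ζ, hζ⟩ := hζ
  haveI : NeZero ℓ := ⟨hℓ⟩
  have hspl : (F.map (algebraMap k L')).Splits := IsSepClosed.splits_of_separable _ hF.map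
  have hcard : Fintype.card (F.rootSet L') = F.natDegree := card_rootSet_eq_natDegree hF hspl
  have hev : ∀ x ∈ F.rootSet L', (aeval x a) ^ ℓ = algebraMap L L' c := by
    intro x hx
    obtain ⟨q, hq⟩ := hca
    have h1 := congrArg (aeval x) hq
    rw [map_mul, aeval_map_algebraMap, aeval_eq_zero_of_mem_rootSet hx, zero_mul, map_sub,
      aeval_C, map_pow, sub_eq_zero] at h1
    exact h1.symm
  by_cases hc0 : c = 0
  · exact ⟨0, by rw [hc0, zero_pow hℓ]⟩
  have hne : ∀ x ∈ F.rootSet L', aeval x a ≠ 0 := by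
    intro x hx h0
    have h1 := hev x hx
    rw [h0, zero_pow hℓ] at h1
    exact hc0 ((map_eq_zero (algebraMap L L')).1 h1.symm)
  have hζ' : IsPrimitiveRoot (algebraMap L L' ζ) ℓ := hζ.map_of_injective (algebraMap L L').injective
  have hgal : ∀ (g : L' ≃ₐ[L] L') (x : L'), g (aeval x a) = aeval (g x) a := by
    intro g x
    exact (aeval_algHom_apply g x a).symm
  -- all the values are equal
  have heq : ∀ x ∈ F.rootSet L', ∀ y ∈ F.rootSet L', aeval x a = aeval y a := by
    intro x hx y hy
    by_cases hxy : x = y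
    · rw [hxy]
    obtain ⟨t, ht⟩ : ∃ t : F.rootSet L', t ∉ ({⟨x, hx⟩, ⟨y, hy⟩} : Finset (F.rootSet L')) := by
      by_contra hall
      push Not at hall
      have h3 := Finset.card_le_card (fun x _ => hall x : (Finset.univ : Finset (F.rootSet L')) ⊆ _)
      have h4 := Finset.card_le_two (a := (⟨x, hx⟩ : F.rootSet L')) (b := ⟨y, hy⟩)
      rw [Finset.card_univ, hcard] at h3
      omega
    simp only [Finset.mem_insert, Finset.mem_singleton, not_or] at ht
    have htx : (t : L') ≠ x := fun h => ht.1 (Subtype.ext h)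
    have hty : (t : L') ≠ y := fun h => ht.2 (Subtype.ext h)
    obtain ⟨g, g1, g2⟩ := alt_L (L := L) hF h5 hfull M hM hns hx t.2 hy t.2 htx.symm hty.symm
    have h6 : (aeval (t : L') a / aeval x a) ^ ℓ = 1 := by
      rw [div_pow, hev _ t.2, hev _ hx, div_self]
      rw [← hev _ hx]
      exact pow_ne_zero _ (hne _ hx)
    obtain ⟨i, -, hi⟩ := hζ'.eq_pow_of_pow_eq_one h6
    have h7 : aeval (t : L') a = algebraMap L L' (ζ ^ i) * aeval x a := by
      rw [map_pow, hi, div_mul_cancel₀ _ (hne _ hx)]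
    have h8 := congrArg g h7
    rw [map_mul, g.commutes, hgal, hgal, g1, g2, h7] at h8
    exact mul_left_cancel₀ ((_root_.map_ne_zero _).2 (pow_ne_zero _ (hζ.ne_zero hℓ))) h8
  obtain ⟨x, hx⟩ : ∃ x, x ∈ F.rootSet L' := by
    by_contra hno
    push Not at hno
    have h3 : Fintype.card (F.rootSet L') = 0 := by
      rw [Fintype.card_eq_zero_iff]
      exact ⟨fun z => hno z.1 z.2⟩
    omega
  have hfix : ∀ g : L' ≃ₐ[L] L', g (aeval x a) = aeval x a := by
    intro g
    rw [hgal]
    refine heq _ ?_ _ hx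
    rw [mem_rootSet] at hx ⊢
    refine ⟨hx.1, ?_⟩
    have h9 := aeval_algHom_apply (g.restrictScalars k) x F
    rw [hx.2, map_zero] at h9
    exact h9
  have h10 : aeval x a ∈ Set.range (algebraMap L L') := by
    rw [InfiniteGalois.mem_range_algebraMap_iff_fixed]
    exact hfix
  obtain ⟨b, hb⟩ := h10
  refine ⟨b, (algebraMap L L').injective ?_⟩
  rw [map_pow, hb, hev x hx]

end ext

end Pool.Agent.J6H65.SG
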