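import Pool.Agent.J6H65.SG.TupL
import Pool.Agent.Y287.SZ.Rk

/-!
The criterion for the rational points and the Tate-Shafarevich group.
-/

set_option autoImplicit false
set_option linter.all false

open Polynomial IsDedekindDomain

namespace Pool.Agent.J6H65.SG

open Pool.Agent.Y713 Pool.Agent.Y713.SE
open Pool.Agent.Y713.SE.Dat (au)
open Pool.Agent.Y713.Jac (J ShaPrimaryTrivial)
open Pool.Agent.R431.SG (stab2)

section places

variable {ℓ n : ℕ} {K : Type} [Field K] (D : Dat ℓ n K)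
variable {L : Type} [Field L] [Algebra K L] [IsGalois K L]
variable {R : Type} [CommRing R] [IsDedekindDomain R] [Algebra R K] [IsFractionRing R K]
variable (Ω : HeightOneSpectrum R → Type) [∀ v, Field (Ω v)]
  [∀ v, Algebra (v.adicCompletion K) (Ω v)] [∀ v, Algebra K (Ω v)]
  [∀ v, IsScalarTower K (v.adicCompletion K) (Ω v)] [∀ v, IsSepClosed (Ω v)]
  [∀ v, IsGalois (v.adicCompletion K) (Ω v)]

/-- the criterion with a twist place, explicit form -/
theorem crit1' [IsSepClosed L] {p : ℕ} [ExpChar L p] [∀ v, ExpChar (Ω v) p]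
    (hℓ : ∀ v : HeightOneSpectrum R, v.valuation K (ℓ : K) = 1)
    (Bad : Set (HeightOneSpectrum R)) (v0 : HeightOneSpectrum R)
    (h0 : D.Sep1 v0) (hδ0 : ¬ Pw ℓ (v0.valuation K D.δ))
    (hgood : ∀ v, v ∉ Bad → v ≠ v0 → D.Sep1 v ∧ v.valuation K D.δ = 1)
    (stab : ∀ d : K, d ≠ 0 → (∀ v : HeightOneSpectrum R, v ∉ Bad → v ≠ v0 →
      Pw ℓ (v.valuation K d)) → (∃ x : v0.adicCompletion K, algebraMap K _ d = x ^ ℓ) →
        ∃ y : K, d = y ^ ℓ)
    (χ : (L ≃ₐ[K] L) → Fin n → ℕ) (hc : D.Coc (fun σ => cl ((D.base L).PT (χ σ))))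
    (ht : ∀ v, D.Triv (v.adicCompletion K) (Ω v) (fun σ => cl ((D.base L).PT (χ σ)))) :
    ∃ (m : Fin n → ℕ) (Q : ClassGroup (D.base L).A),
      cl ((D.base L).PT m) * (D.base L).sC Q = Q ∧
      ∀ σ, cl ((D.base L).PT (χ σ)) = D.mC (Dat.au σ) Q / Q := by
  obtain ⟨m, hm⟩ := D.twist_place (p := p) h0 hδ0 (hℓ v0) (ht v0)
  obtain ⟨Q, χ', hQ, hχ', hc'⟩ := D.exists_adj (p := p) m hc
  obtain ⟨kd⟩ := D.exists_KD hc'
  have ht' : ∀ v, D.Triv (v.adicCompletion K) (Ω v) (fun σ => cl ((D.base L).PT (χ' σ))) := by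
    intro v
    have h4 : (fun σ => cl ((D.base L).PT (χ' σ))) =
      fun σ => cl ((D.base L).PT (χ σ)) / (D.mC (au σ) Q / Q) := funext hχ'
    rw [h4]
    exact (ht v).div D Q
  have h1 : ∀ i j, ∃ y : K, kd.d i j = y ^ ℓ := by
    intro i j
    have hd0 : kd.d i j ≠ 0 := by
      intro h0
      have := kd.hd i j
      rw [h0, map_zero] at this
      exact kd.h0 i j (pow_eq_zero_iff D.pos.ne' |>.1 this)
    refine stab _ hd0 (fun v hv hv0 => ?_) (hm Q χ' kd hQ hχ' i j)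
    exact D.good_place (p := p) (hgood v hv hv0).1 (hgood v hv hv0).2 (hℓ v) (ht' v) kd i j
  refine ⟨m, Q, hQ, fun σ => ?_⟩
  have h2 := hχ' σ
  rw [(D.base L).cl_PT_of_modEq fun i j => ?_] at h2
  · exact (div_eq_one.1 h2.symm)
  · obtain ⟨y, hy⟩ := h1 i j
    exact D.modEq_of_pow kd hy σ

end places

theorem triv_one {ℓ n : ℕ} {K : Type} [Field K] (D : Y713.SE.Dat ℓ n K) {E F Ω : Type} [Field E]
    [Algebra K E] [Field F] [Algebra K F] [Field Ω]
    [Algebra K Ω] [Algebra F Ω] [IsScalarTower K F Ω] (ι : E →ₐ[K] Ω) :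
    D.Triv (L := E) F Ω (fun _ => 1) :=
  ⟨ι, 1, fun τ σ h => by rw [map_one, map_one, div_one]⟩

section tuple

variable {k : Type} [Field k] (K : Type) [Field K] [Algebra k[X] K] [IsFractionRing k[X] K]

theorem tuple_key {ℓ : ℕ} (hℓ : ℓ.Prime) (hk : (ℓ : k) ≠ 0) {ζ : k} (hζ : IsPrimitiveRoot ζ ℓ)
    {N : ℕ} (hn : ¬ ℓ ∣ N) {g : Fin N → k[X]} (T : Finset k[X])
    (hT : ∀ π ∈ T, Irreducible π ∧ π.Monic)
    (hbad : ∀ i j, i ≠ j → ∀ v : HeightOneSpectrum k[X], (∀ π ∈ T, π ∉ v.asIdeal) →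
      g i - g j ∉ v.asIdeal)
    {D : k[X]} (hD2 : Irreducible D)
    (hD4 : ∀ c : k, (∃ a : k[X], D ∣ C c - a ^ ℓ) → ∃ b : k, c = b ^ ℓ)
    (hDT : ∀ π ∈ T, ¬ D ∣ π)
    (hD5 : ∀ (c : k) (a : k[X] → ℕ) (z : k[X]), c ≠ 0 → D ∣ C c * ∏ π ∈ T, π ^ a π - z ^ ℓ →
      ∀ π ∈ T, ℓ ∣ a π) (he : Function.Injective fun i => algebraMap k[X] K (g i))
    (hδ : algebraMap k[X] K D ≠ 0) {L : Type} [Field L] [Algebra K L] [IsGalois K L]
    [IsSepClosed L] (Ω : HeightOneSpectrum k[X] → Type) [∀ v, Field (Ω v)]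
    [∀ v, Algebra (v.adicCompletion K) (Ω v)] [∀ v, Algebra K (Ω v)]
    [∀ v, IsScalarTower K (v.adicCompletion K) (Ω v)] [∀ v, IsSepClosed (Ω v)]
    [∀ v, IsGalois (v.adicCompletion K) (Ω v)] (χ : (L ≃ₐ[K] L) → Fin N → ℕ)
    (hc : (tDat K hℓ hk hζ hδ he hn).Coc
      (fun σ => cl (((tDat K hℓ hk hζ hδ he hn).base L).PT (χ σ))))
    (ht : ∀ v, (tDat K hℓ hk hζ hδ he hn).Triv (v.adicCompletion K) (Ω v)
      (fun σ => cl (((tDat K hℓ hk hζ hδ he hn).base L).PT (χ σ)))) :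
    ∃ (m : Fin N → ℕ) (Q : ClassGroup ((tDat K hℓ hk hζ hδ he hn).base L).A),
      cl (((tDat K hℓ hk hζ hδ he hn).base L).PT m) *
        ((tDat K hℓ hk hζ hδ he hn).base L).sC Q = Q ∧
      ∀ σ, cl (((tDat K hℓ hk hζ hδ he hn).base L).PT (χ σ)) =
        (tDat K hℓ hk hζ hδ he hn).mC (Dat.au σ) Q / Q := by
  classical
  let Bad : Set (HeightOneSpectrum k[X]) := {v | ∃ π ∈ T, π ∈ v.asIdeal}
  have hnBad : ∀ v, v ∉ Bad → (∀ π ∈ T, π ∉ v.asIdeal) := fun v hv π hπ hm => hv ⟨π, hπ, hm⟩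
  let DD := tDat K hℓ hk hζ hδ he hn
  have hsep : ∀ v, v ∉ Bad → ∀ i j, i ≠ j → v.valuation K (DD.e i - DD.e j) = 1 := by
    intro v hv i j hij
    show v.valuation K (algebraMap k[X] K (g i) - algebraMap k[X] K (g j)) = 1
    rw [← map_sub, val_eq_one_iff]
    exact hbad i j hij v (hnBad v hv)
  have hv0 : hp D hD2 ∉ Bad := by
    rintro ⟨π, hπ, hm⟩
    exact hDT π hπ ((mem_hp hD2 π).1 hm)
  obtain ⟨p, hexp⟩ := ExpChar.exists K
  haveI := hexp
  haveI : ExpChar L p := expChar_of_injective_algebraMap (algebraMap K L).injective p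
  haveI : ∀ v : HeightOneSpectrum k[X], ExpChar (Ω v) p := fun v =>
    expChar_of_injective_algebraMap (algebraMap K (Ω v)).injective p
  have hvD : ∀ v, v ≠ hp D hD2 → v.valuation K (algebraMap k[X] K D) = 1 := by
    intro v hv
    rw [val_eq_one_iff]
    exact fun hmem => hv (eq_hp hD2 hmem)
  exact crit1' DD (p := p) (L := L) Ω (by
      intro v
      have h3 : ((ℓ : ℕ) : K) = algebraMap k[X] K (C (ℓ : k)) := by
        rw [C_eq_natCast, map_natCast]
      rw [h3]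
      exact val_C hk) Bad (hp D hD2) (hsep _ hv0) (by
      show ¬ Pw ℓ ((hp D hD2).valuation K (algebraMap k[X] K D))
      rw [val_hp_self]
      exact not_pw_exp hℓ) (fun v hv hvne => ⟨hsep v hv, hvD v hvne⟩) (by
      intro d hd hpw hx
      refine stab2 hℓ hD2 hD4 T hT hDT hD5 hd (fun v hv hvne => hpw v ?_ hvne) hx
      rintro ⟨π, hπ, hm⟩
      exact hv π hπ hm) χ hc ht

theorem tuple_points {ℓ : ℕ} (hℓ : ℓ.Prime) (hk : (ℓ : k) ≠ 0) {ζ : k} (hζ : IsPrimitiveRoot ζ ℓ)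
    {N : ℕ} (hn : ¬ ℓ ∣ N) {g : Fin N → k[X]} (T : Finset k[X])
    (hT : ∀ π ∈ T, Irreducible π ∧ π.Monic)
    (hbad : ∀ i j, i ≠ j → ∀ v : HeightOneSpectrum k[X], (∀ π ∈ T, π ∉ v.asIdeal) →
      g i - g j ∉ v.asIdeal)
    {D : k[X]} (hD2 : Irreducible D)
    (hD4 : ∀ c : k, (∃ a : k[X], D ∣ C c - a ^ ℓ) → ∃ b : k, c = b ^ ℓ)
    (hDT : ∀ π ∈ T, ¬ D ∣ π)
    (hD5 : ∀ (c : k) (a : k[X] → ℕ) (z : k[X]), c ≠ 0 → D ∣ C c * ∏ π ∈ T, π ^ a π - z ^ ℓ →
      ∀ π ∈ T, ℓ ∣ a π) (he : Function.Injective fun i => algebraMap k[X] K (g i))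
    (hδ : algebraMap k[X] K D ≠ 0) :
    ∀ x : ClassGroup ((tDat K hℓ hk hζ hδ he hn).base K).A,
      ∃ t y : ClassGroup ((tDat K hℓ hk hζ hδ he hn).base K).A,
        t ^ ℓ = 1 ∧ x = t * y ^ ℓ := by
  obtain ⟨p, hexp⟩ := ExpChar.exists K
  haveI := hexp
  haveI : ExpChar (SeparableClosure K) p :=
    expChar_of_injective_algebraMap (algebraMap K (SeparableClosure K)).injective p
  haveI : ∀ v : HeightOneSpectrum k[X], ExpChar (SeparableClosure (v.adicCompletion K)) p := fun v =>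
    expChar_of_injective_algebraMap
      (algebraMap K (SeparableClosure (v.adicCompletion K))).injective p
  let DD := tDat K hℓ hk hζ hδ he hn
  have key := tuple_key K hℓ hk hζ hn T hT hbad hD2 hD4 hDT hD5 he hδ (L := SeparableClosure K)
    (fun v : HeightOneSpectrum k[X] => SeparableClosure (v.adicCompletion K))
  intro x
  exact Pool.Agent.Y287.SZ.Rk.t ℓ N K DD (SeparableClosure K) p
      (fun c => ∀ v : HeightOneSpectrum k[X], DD.Triv (v.adicCompletion K)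
        (SeparableClosure (v.adicCompletion K)) c)
      (fun v => triv_one DD (IsSepClosed.lift))
      (fun c Q h v => (h v).div DD Q) key x

end tuple

section final

open Pool.Agent.X243.Gen Pool.Agent.X243.Sol Pool.Agent.X243.Tate
open Pool.Agent.R431.SG (fs)

variable {k : Type} [Field k] {L L' : Type} [Field L] [Field L'] [Algebra k L]
  [Algebra L L'] [Algebra k L'] [IsScalarTower k L L'] [IsSepClosure L L']

/-- The data of the criterion over an extension of the ground field. -/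
structure Dta (ℓ : ℕ) {N : ℕ} (gL : Fin (N + 1) → L[X]) : Prop where
  irr : Irreducible (gL 0)
  sep : (gL 0).Separable
  inj : Function.Injective fun i : Fin N => gL i.succ
  mon : ∀ π ∈ TT L gL, Irreducible π ∧ π.Monic
  bad : ∀ i j : Fin N, i ≠ j → ∀ v : HeightOneSpectrum L[X], (∀ π ∈ TT L gL, π ∉ v.asIdeal) →
    gL i.succ - gL j.succ ∉ v.asIdeal
  cst : ∀ c : L, (∃ a : L[X], gL 0 ∣ C c - a ^ ℓ) → ∃ b : L, c = b ^ ℓ
  ndvd : ∀ π ∈ TT L gL, ¬ gL 0 ∣ π
  pws : ∀ (c : L) (a : L[X] → ℕ) (z : L[X]), c ≠ 0 →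
    gL 0 ∣ C c * ∏ π ∈ TT L gL, π ^ a π - z ^ ℓ → ∀ π ∈ TT L gL, ℓ ∣ a π

theorem irr_cmul {δ : L} (hδ : δ ≠ 0) {p : L[X]} (h : Irreducible p) : Irreducible (C δ * p) :=
  (irreducible_isUnit_mul (isUnit_C.2 (isUnit_iff_ne_zero.2 hδ))).2 h

theorem sep_cmul {δ : L} (hδ : δ ≠ 0) {p : L[X]} (h : p.Separable) : (C δ * p).Separable :=
  Separable.unit_mul (isUnit_C.2 (isUnit_iff_ne_zero.2 hδ)) h

theorem data_L {ℓ N n : ℕ} (hℓ : ℓ.Prime) (hn : 5 ≤ n) {g : Fin (N + 1) → k[X]}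
    (H : Hyp ℓ N n g) (hk : (ℓ : k) ≠ 0) {ζ : k} (hζ : IsPrimitiveRoot ζ ℓ)
    (M : IntermediateField k L') [Normal k M]
    (hM : ∀ x : L, IsSeparable k x → algebraMap L L' x ∈ M)
    (hns0 : ¬ ((g 0).map (algebraMap k M)).Splits)
    (hnsd : ∀ i j : Fin N, i < j → ¬ ((g i.succ - g j.succ).map (algebraMap k M)).Splits) :
    Dta ℓ fun i => (g i).map (algebraMap k L) := by
  haveI : IsSepClosed L' := IsSepClosure.sep_closed L
  obtain ⟨⟨-, hg0⟩, hsep, hfull⟩ := H.f0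
  have hζL : IsPrimitiveRoot (algebraMap k L ζ) ℓ := hζ.map_of_injective (algebraMap k L).injective
  obtain ⟨gL, hgL⟩ : ∃ gL : Fin (N + 1) → L[X], ∀ i, gL i = (g i).map (algebraMap k L) :=
    ⟨_, fun _ => rfl⟩
  have hirr : ∀ i j : Fin N, i < j → Irreducible (gL i.succ - gL j.succ) := by
    intro i j hij
    obtain ⟨⟨-, h1⟩, h2, h3⟩ := H.fd i j hij
    rw [hgL, hgL, ← Polynomial.map_sub]
    exact irr_L (L := L) (L' := L') h2 (by omega) h3 M hM (hnsd i j hij)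
  have hD2 : Irreducible (gL 0) := by
    rw [hgL]
    exact irr_L (L := L) (L' := L') hsep (by omega) hfull M hM hns0
  have hinj : Function.Injective fun i : Fin N => gL i.succ := by
    intro i j hij
    by_contra hne
    rcases lt_or_gt_of_ne hne with h | h
    · exact (hirr i j h).ne_zero (sub_eq_zero.2 hij)
    · exact (hirr j i h).ne_zero (sub_eq_zero.2 hij.symm)
  have hT : ∀ π ∈ TT L gL, Irreducible π ∧ π.Monic := by
    intro π hπ
    obtain ⟨q, hq, rfl⟩ := mem_TT.1 hπ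
    exact dl_irr (hirr _ _ hq)
  have hbad0 : ∀ i j : Fin N, i < j → ∀ v : HeightOneSpectrum L[X],
      (∀ π ∈ TT L gL, π ∉ v.asIdeal) → gL i.succ - gL j.succ ∉ v.asIdeal := by
    intro i j hij v hv hm
    refine hv (dl L gL (i, j)) (mem_TT.2 ⟨(i, j), hij, rfl⟩) ?_
    exact Ideal.mul_mem_left _ _ hm
  have hDT : ∀ π ∈ TT L gL, ¬ gL 0 ∣ π := by
    intro π hπ hdvd
    obtain ⟨q, hq, rfl⟩ := mem_TT.1 hπ
    have h1 := H.np (fun q' => if q' = q then 1 else 0) (by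
      intro q' hq'
      rw [if_neg]
      rintro rfl
      exact hq' hq) (by
      intro q'
      split_ifs
      · exact hℓ.one_lt
      · exact hℓ.pos) ⟨q, by
      rw [if_pos rfl]
      exact one_ne_zero⟩
    have h3 : (fs (fun q' => if q' = q then 1 else 0) fun i : Fin N => g i.succ) =
        g q.1.succ - g q.2.succ := by
      unfold fs
      rw [Finset.prod_eq_single q]
      · dsimp only
        rw [if_pos rfl, pow_one]
      · intro b _ hb
        dsimp only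
        rw [if_neg hb, pow_zero]
      · intro h
        exact absurd (Finset.mem_univ _) h
    rw [h3] at h1
    have hspl : ((g 0).map (algebraMap k L')).Splits :=
      IsSepClosed.splits_of_separable _ hsep.map
    obtain ⟨w, hw⟩ : ∃ w, w ∈ (g 0).rootSet L' := by
      by_contra hno
      push Not at hno
      have h4 : Fintype.card ((g 0).rootSet L') = (g 0).natDegree :=
        card_rootSet_eq_natDegree hsep hspl
      have h5 : Fintype.card ((g 0).rootSet L') = 0 := by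
        rw [Fintype.card_eq_zero_iff]
        exact ⟨fun z => hno z.1 z.2⟩
      omega
    refine ne_of_nopow hsep (by omega) h1 w hw ?_
    rw [← aeval_map_algebraMap L, Polynomial.map_sub, ← hgL, ← hgL, dl_eq (hirr _ _ hq).ne_zero,
      map_mul]
    obtain ⟨r, hr⟩ := hdvd
    rw [hr, map_mul, hgL 0, aeval_map_algebraMap, aeval_eq_zero_of_mem_rootSet hw, zero_mul,
      mul_zero]
  have hres : Dta ℓ gL :=
    { irr := hD2
      sep := by rw [hgL]; exact hsep.map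
      inj := hinj
      mon := hT
      bad := fun i j hne v hv => by
        rcases lt_or_gt_of_ne hne with h | h
        · exact hbad0 i j h v hv
        · intro hm
          apply hbad0 j i h v hv
          rw [← neg_sub]
          exact neg_mem hm
      cst := fun c hc => by
        obtain ⟨a, ha⟩ := hc
        rw [hgL] at ha
        exact const_L (L' := L') hsep (by omega) hfull M hM hns0 hℓ.ne_zero ha ⟨_, hζL⟩
      ndvd := hDT
      pws := fun c a z hc hz π hπ =>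
        hD5_L (L' := L') hℓ hn H hk hζ M hM hns0 hgL c a z hc hz π hπ }
  obtain rfl : gL = fun i => (g i).map (algebraMap k L) := funext hgL
  exact hres

end final

end Pool.Agent.J6H65.SG
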