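import Pool.Agent.J6H65.SG.Ev

/-!
The proportion of the residue classes of tuples for which all the events happen.
-/

set_option autoImplicit false
set_option linter.all false

open Polynomial
open scoped Classical

namespace Pool.Agent.J6H65.SG

open Pool.Agent.X243.Gen Pool.Agent.X243.Sol Pool.Agent.X243.Tate Pool.Agent.Y160.T3
open Pool.Agent.R431.SG (fs NP card_pairs proportion exists_np)

/-- The index set of the events: three for the first polynomial, three for each difference, and one for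
each vector of exponents. -/
abbrev Sx (ℓ N : ℕ) : Type := Fin 3 ⊕ ({q : Fin N × Fin N // q.1 < q.2} × Fin 3) ⊕
  {s : Fin N × Fin N → Fin ℓ // (∀ q, ¬ q.1 < q.2 → (s q : ℕ) = 0) ∧ ∃ q, (s q : ℕ) ≠ 0}

/-- The events. -/
def GE (ℓ N n : ℕ) (R : Type) [CommRing R] : Sx ℓ N → Set (Fin (N + 1) × Fin (n + 1) → R)
  | Sum.inl t => {c | (fun j => c (0, j)) ∈ Ev R n t}
  | Sum.inr (Sum.inl (q, t)) =>
    {c | (fun j => c (q.1.1.succ, j) - c (q.1.2.succ, j)) ∈ Ev R n t}
  | Sum.inr (Sum.inr s) => PE ℓ N n (fun q => (s.1 q : ℕ))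

/-- the projection to the first polynomial -/
def prj0 (F : Type) [AddCommGroup F] (N n : ℕ) :
    (Fin (N + 1) × Fin (n + 1) → F) →+ (Fin (n + 1) → F) where
  toFun c := fun j => c (0, j)
  map_zero' := rfl
  map_add' _ _ := rfl

/-- the difference of two polynomials -/
def prjd (F : Type) [AddCommGroup F] (N n : ℕ) (a b : Fin N) :
    (Fin (N + 1) × Fin (n + 1) → F) →+ (Fin (n + 1) → F) where
  toFun c := fun j => c (a.succ, j) - c (b.succ, j)
  map_zero' := by funext j; simp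
  map_add' c d := by
    funext j
    simp only [Pi.add_apply]
    abel

theorem prjd_surj {F : Type} [AddCommGroup F] {N n : ℕ} {a b : Fin N} (h : a ≠ b) :
    Function.Surjective (prjd F N n a b) := fun u => by
  refine ⟨fun q => if q.1 = a.succ then u q.2 else 0, ?_⟩
  funext j
  show (if a.succ = a.succ then u j else 0) - (if b.succ = a.succ then u j else 0) = u j
  rw [if_pos rfl, if_neg fun h' => h (Fin.succ_injective _ h').symm, sub_zero]

/-- the constant -/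
noncomputable def cc (n : ℕ) : ℝ := 1 / (64 * D4 n * DD n : ℝ)

theorem DD_pos {n : ℕ} (hn : 3 ≤ n) : 0 < DD n := by
  have := D3_pos n
  unfold DD
  have h3 : 0 < 4 * n := by omega
  positivity

theorem cc_pos {n : ℕ} (hn : 3 ≤ n) : 0 < cc n := by
  have h1 : (0 : ℝ) < (D4 n : ℝ) := by exact_mod_cast D4_pos n
  have h2 : (0 : ℝ) < (DD n : ℝ) := by exact_mod_cast DD_pos hn
  unfold cc
  positivity

theorem GE_card {F : Type} [Field F] [Finite F] {ℓ N n : ℕ} (hℓ : ℓ.Prime)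
    (hex : ∃ γ : F, NP ℓ γ) (hn : 3 ≤ n) (hq : 2 * n + 4 * N + 2 * (N * N) + 6 ≤ Nat.card F)
    (x : Sx ℓ N) :
    cc n * (Nat.card F : ℝ) ^ Fintype.card (Fin (N + 1) × Fin (n + 1)) ≤
      ((GE ℓ N n F x).ncard : ℝ) := by
  haveI := Fintype.ofFinite F
  have h1 : (1 : ℝ) ≤ (D4 n : ℝ) := by exact_mod_cast D4_pos n
  have h2 : (1 : ℝ) ≤ (DD n : ℝ) := by exact_mod_cast DD_pos hn
  have hcF : Nat.card F = Fintype.card F := Nat.card_eq_fintype_card
  rw [hcF] at hq ⊢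
  have hev : ∀ t, cc n * (Fintype.card (Fin (n + 1) → F) : ℝ) ≤ ((Ev F n t).ncard : ℝ) := by
    intro t
    have h5 := Ev_card (F := F) hn (by omega) t
    have h6 : (Fintype.card F : ℝ) ^ (n + 1) ≤ (DD n : ℝ) * ((Ev F n t).ncard : ℝ) := by
      exact_mod_cast h5
    rw [Fintype.card_fun, Fintype.card_fin, Nat.cast_pow]
    unfold cc
    rw [div_mul_eq_mul_div, one_mul, div_le_iff₀ (by positivity)]
    have h7 : (0 : ℝ) ≤ ((Ev F n t).ncard : ℝ) := Nat.cast_nonneg _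
    nlinarith [mul_nonneg h7 (by linarith : (0 : ℝ) ≤ (DD n : ℝ)),
      mul_nonneg (mul_nonneg h7 (by linarith : (0 : ℝ) ≤ (DD n : ℝ)))
        (by linarith : (0 : ℝ) ≤ (D4 n : ℝ) - 1)]
  have hcard : (Fintype.card (Fin (N + 1) × Fin (n + 1) → F) : ℝ) =
      (Fintype.card F : ℝ) ^ Fintype.card (Fin (N + 1) × Fin (n + 1)) := by
    rw [Fintype.card_fun, Nat.cast_pow]
  rw [← hcard]
  rcases x with t | ⟨q, t⟩ | s
  · exact proportion (prj0 F N n) (fun u => ⟨fun q => u q.2, rfl⟩) (Ev F n t) (hev t)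
      fun c hc => hc
  · exact proportion (prjd F N n q.1.1 q.1.2) (prjd_surj (ne_of_lt q.2)) (Ev F n t) (hev t)
      fun c hc => hc
  · obtain ⟨q0, hq0⟩ := s.2.2
    have h3 := PE_card (F := F) (n := n) hℓ hex (s := fun q => (s.1 q : ℕ)) s.2.1 (q0 := q0)
      (fun hd => hq0 (Nat.eq_zero_of_dvd_of_lt hd (s.1 q0).2)) (by omega) (by omega) (by omega)
      (by omega)
    rw [← hcard] at h3
    refine le_trans (mul_le_mul_of_nonneg_right ?_ (Nat.cast_nonneg _)) h3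
    unfold cc
    apply one_div_le_one_div_of_le (by positivity)
    nlinarith

theorem np_of {R : Type} [CommRing R] [IsDomain R] {ℓ : ℕ} (hℓ : ℓ.Prime) {ζ : R}
    (hζ : IsPrimitiveRoot ζ ℓ) {p : Ideal R} [hp : p.IsMaximal] [Finite (R ⧸ p)]
    (hn : (ℓ : R) ∉ p) :
    letI := Ideal.Quotient.field p
    ∃ γ : R ⧸ p, NP ℓ γ := by
  letI := Ideal.Quotient.field p
  haveI := Fintype.ofFinite (R ⧸ p)
  refine exists_np hℓ.ne_zero (z := Ideal.Quotient.mk p ζ) ?_ ?_
  · rw [← map_pow, hζ.pow_eq_one, map_one]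
  · intro h1
    apply hn
    rw [← Ideal.Quotient.eq_zero_iff_mem, map_natCast]
    have h2 := congrArg (Ideal.Quotient.mk p) (hζ.geom_sum_eq_zero hℓ.one_lt)
    rw [map_sum, map_zero] at h2
    simp only [map_pow, h1, one_pow, Finset.sum_const, Finset.card_range, nsmul_eq_mul,
      mul_one] at h2
    exact h2

/-- The bound for the residue fields. -/
def BB (N n : ℕ) : ℕ := 2 * n + 4 * N + 2 * (N * N) + 6

theorem densT (R : Type) [CommRing R] [IsDomain R] [Algebra.FiniteType ℤ R] (hR : ¬ IsField R)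
    {ℓ : ℕ} (hℓ : ℓ.Prime) (h0 : (ℓ : R) ≠ 0) {ζ : R} (hζ : IsPrimitiveRoot ζ ℓ) (N : ℕ) {n : ℕ}
    (hn : 3 ≤ n) (η : ℝ) (hη : 0 < η) :
    ∃ M : Ideal R, Finite (R ⧸ M) ∧
      (1 - η) * (Nat.card (R ⧸ M) : ℝ) ^ (Fintype.card (Fin (N + 1) × Fin (n + 1))) ≤
      (({x : Fin (N + 1) × Fin (n + 1) → R ⧸ M | ∀ s : Sx ℓ N,
        ∃ p ∈ Zb R (ℓ : R) (BB N n), ∀ y : Fin (N + 1) × Fin (n + 1) → R,
          (∀ j, Ideal.Quotient.mk M (y j) = x j) →
          (fun j => Ideal.Quotient.mk p (y j)) ∈ GE ℓ N n (R ⧸ p) s}).ncard : ℝ) := by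
  refine densityG (Zb R (ℓ : R) (BB N n)) (Zb_inf R hR h0 _) (fun p hp => hp.1)
    (fun p hp => hp.2.1) (fun s p => GE ℓ N n (R ⧸ p) s) (c := cc n) (cc_pos hn) ?_ η hη
  intro s p hp
  haveI := hp.1
  haveI : Finite (R ⧸ p) := hp.2.1
  letI : Field (R ⧸ p) := Ideal.Quotient.field p
  exact GE_card hℓ (np_of hℓ hζ hp.2.2.2) hn hp.2.2.1 s

end Pool.Agent.J6H65.SG
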