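import Pool.Agent.J6H65.SG.Zb
import Pool.Agent.X243.Sol.Cnt7
import Pool.Agent.R431.SG.PowM
import Pool.Agent.R431.SG.Dens

/-!
Events modulo maximal ideals for tuples of polynomials, and their proportions.
-/

set_option autoImplicit false
set_option linter.all false

open Polynomial
open scoped Classical

namespace Pool.Agent.J6H65.SG

open Pool.Agent.X243.Gen Pool.Agent.X243.Sol Pool.Agent.X243.Tate Pool.Agent.Y160.T3
open Pool.Agent.R431.SG (fs NP card_pairs proportion)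

/-- The polynomials of a tuple. -/
noncomputable def gp {R : Type} [CommRing R] {N n : ℕ} (c : Fin (N + 1) × Fin (n + 1) → R)
    (i : Fin (N + 1)) : R[X] := bF fun j => c (i, j)

theorem gp_map {R S : Type} [CommRing R] [CommRing S] (φ : R →+* S) {N n : ℕ}
    (c : Fin (N + 1) × Fin (n + 1) → R) (i : Fin (N + 1)) :
    (gp c i).map φ = gp (fun q => φ (c q)) i := bF_map φ _

theorem gp_nd {R : Type} [CommRing R] {N n : ℕ} (c : Fin (N + 1) × Fin (n + 1) → R)
    (i : Fin (N + 1)) : (gp c i).natDegree ≤ n := bF_nd _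

theorem bF_sub {R : Type} [CommRing R] {r : ℕ} (c d : Fin r → R) :
    bF c - bF d = bF fun j => c j - d j := by
  unfold bF
  rw [← Finset.sum_sub_distrib]
  refine Finset.sum_congr rfl fun j _ => ?_
  rw [C_sub, sub_mul]

theorem fs_map {R S : Type} [CommRing R] [CommRing S] (φ : R →+* S) {N : ℕ}
    (s : Fin N × Fin N → ℕ) (u : Fin N → R) : φ (fs s u) = fs s fun i => φ (u i) := by
  unfold fs
  rw [map_prod]
  exact Finset.prod_congr rfl fun q _ => by rw [map_pow, map_sub]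

/-- The first polynomial is a product of distinct linear factors, and the product of the differences
with the exponents `s` has values at two of the zeros whose quotient is not an `ℓ`-th power. -/
def PE (ℓ : ℕ) {R : Type} [CommRing R] (N n : ℕ) (s : Fin N × Fin N → ℕ) :
    Set (Fin (N + 1) × Fin (n + 1) → R) :=
  {c | ∃ (d : R) (S : Finset R) (c₁ c₂ : R), d ≠ 0 ∧ S.card = n ∧
    gp c 0 = C d * ∏ x ∈ S, (X - C x) ∧ c₁ ∈ S ∧ c₂ ∈ S ∧
    (fs s fun i => gp c i.succ).eval c₁ ≠ 0 ∧ (fs s fun i => gp c i.succ).eval c₂ ≠ 0 ∧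
    ∀ y, (fs s fun i => gp c i.succ).eval c₁ ≠ y ^ ℓ * (fs s fun i => gp c i.succ).eval c₂}

section count

variable {F : Type} [Field F] [Fintype F]

/-- the values at two points -/
noncomputable def ev2 (N n : ℕ) (r r' : F) :
    (Fin N × Fin (n + 1) → F) →+ (Fin N → F) × (Fin N → F) where
  toFun c := (fun i => (bF fun j => c (i, j)).eval r, fun i => (bF fun j => c (i, j)).eval r')
  map_zero' := by
    refine Prod.ext ?_ ?_ <;> funext i <;> simp [bF, eval_finset_sum]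
  map_add' c d := by
    refine Prod.ext ?_ ?_ <;> funext i <;>
      simp [bF, eval_finset_sum, add_mul, Finset.sum_add_distrib]

theorem ev2_surj {N n : ℕ} (hn : 1 ≤ n) {r r' : F} (hr : r ≠ r') :
    Function.Surjective (ev2 N n r r') := by
  rintro ⟨u, w⟩
  let g : Fin N → F[X] := fun i => C ((u i - w i) / (r - r')) * (X - C r) + C (u i)
  have hg : ∀ i, (g i).natDegree ≤ n := by
    intro i
    refine (natDegree_add_le _ _).trans (max_le ?_ ?_)
    · refine (natDegree_C_mul_le _ _).trans ?_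
      rw [natDegree_X_sub_C]
      exact hn
    · rw [natDegree_C]; omega
  refine ⟨fun q => (g q.1).coeff q.2, ?_⟩
  have hb : ∀ i, (bF fun j : Fin (n + 1) => (g i).coeff j) = g i := fun i => bF_coeffs (hg i)
  have hrr : r - r' ≠ 0 := sub_ne_zero.2 hr
  refine Prod.ext ?_ ?_
  · funext i
    show (bF fun j : Fin (n + 1) => (g i).coeff j).eval r = u i
    rw [hb]
    simp [g]
  · funext i
    show (bF fun j : Fin (n + 1) => (g i).coeff j).eval r' = w i
    rw [hb]
    simp only [g, eval_add, eval_mul, eval_C, eval_sub, eval_X]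
    field_simp
    ring

theorem PE_card {ℓ N n : ℕ} (hℓ : ℓ.Prime) (hex : ∃ γ : F, NP ℓ γ) {s : Fin N × Fin N → ℕ}
    (hs : ∀ q : Fin N × Fin N, ¬ q.1 < q.2 → s q = 0) {q0 : Fin N × Fin N} (hq0 : ¬ ℓ ∣ s q0)
    (hn : 2 ≤ n) (hq : 2 * n + 2 ≤ Fintype.card F) (hN : 4 * N + 6 ≤ Fintype.card F)
    (hN2 : 2 * (N * N) ≤ Fintype.card F) :
    (1 / (64 * D4 n : ℝ)) * (Fintype.card F : ℝ) ^ Fintype.card (Fin (N + 1) × Fin (n + 1)) ≤
      ((PE (R := F) ℓ N n s).ncard : ℝ) := by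
  obtain ⟨q, hqd⟩ : ∃ q, q = Fintype.card F := ⟨_, rfl⟩
  have hA := E4_card (F := F) hn hq
  obtain ⟨A, hAd⟩ : ∃ A : Finset (Fin (n + 1) → F), A = (Set.toFinite (E4 F n)).toFinset := ⟨_, rfl⟩
  have hAc : (E4 F n).ncard = A.card := by rw [hAd, Set.ncard_eq_toFinset_card]
  have hAm : ∀ x, x ∈ A ↔ x ∈ E4 F n := by
    intro x
    rw [hAd, Set.Finite.mem_toFinset]
  rw [hAc] at hA
  let S : (Fin (n + 1) → F) → (Fin N × Fin (n + 1) → F) → Prop := fun c0 c' =>
    ∃ (d : F) (S : Finset F) (r r' : F), d ≠ 0 ∧ S.card = n ∧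
      bF c0 = C d * ∏ x ∈ S, (X - C x) ∧ r ∈ S ∧ r' ∈ S ∧
      fs s (fun i => (bF fun j => c' (i, j)).eval r) ≠ 0 ∧
      fs s (fun i => (bF fun j => c' (i, j)).eval r') ≠ 0 ∧
      ∀ y, fs s (fun i => (bF fun j => c' (i, j)).eval r) ≠
        y ^ ℓ * fs s (fun i => (bF fun j => c' (i, j)).eval r')
  have hS : ∀ c0 ∈ A, (1 / 64 : ℝ) * (q : ℝ) ^ (N * (n + 1)) ≤
      ((Finset.univ.filter fun c' : Fin N × Fin (n + 1) → F => S c0 c').card : ℝ) := by
    intro c0 hc0
    rw [hAm] at hc0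
    obtain ⟨d, T, hd, hT, hc⟩ := hc0
    obtain ⟨r, hr1, r', hr2, hr⟩ := Finset.one_lt_card.1 (show 1 < T.card by omega)
    have hcard := card_pairs (F := F) hℓ hex hs hq0 hN hN2
    set Z : Set ((Fin N → F) × (Fin N → F)) := {z | fs s z.1 ≠ 0 ∧ fs s z.2 ≠ 0 ∧
        ∀ y, fs s z.1 ≠ y ^ ℓ * fs s z.2} with hZ
    have hZc : Z.ncard = (Finset.univ.filter fun z : (Fin N → F) × (Fin N → F) =>
        fs s z.1 ≠ 0 ∧ fs s z.2 ≠ 0 ∧ ∀ y, fs s z.1 ≠ y ^ ℓ * fs s z.2).card := by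
      rw [← Set.ncard_coe_finset]
      congr 1
      ext z
      simp [hZ]
    have h5 := proportion (ev2 N n r r') (ev2_surj (by omega) hr) Z (δ := 1 / 64)
      (Ω := {c' | S c0 c'}) (by
        rw [Fintype.card_prod, Fintype.card_fun, Fintype.card_fin, hZc]
        have h6 : ((Fintype.card F ^ N * Fintype.card F ^ N : ℕ) : ℝ) ≤
          ((64 * (Finset.univ.filter fun z :
          (Fin N → F) × (Fin N → F) =>
            fs s z.1 ≠ 0 ∧ fs s z.2 ≠ 0 ∧ ∀ y, fs s z.1 ≠ y ^ ℓ * fs s z.2).card : ℕ) : ℝ) := by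
          exact_mod_cast hcard
        rw [Nat.cast_mul 64] at h6
        push_cast at h6 ⊢
        linarith) (fun c' hc' => ⟨d, T, r, r', hd, hT, hc, hr1, hr2, hc'⟩)
    rw [Fintype.card_fun, Fintype.card_prod, Fintype.card_fin, Fintype.card_fin,
      Nat.cast_pow, ← hqd] at h5
    refine h5.trans (le_of_eq ?_)
    rw [← Set.ncard_coe_finset]
    congr 2
    ext c'
    simp
  have h1 : ∑ c0 ∈ A, (Finset.univ.filter fun c' : Fin N × Fin (n + 1) → F =>
      S c0 c').card ≤ (PE (R := F) ℓ N n s).ncard := by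
    rw [← Finset.card_sigma, ← Set.ncard_coe_finset]
    let ψ : (Σ _ : Fin (n + 1) → F, (Fin N × Fin (n + 1) → F)) →
        (Fin (N + 1) × Fin (n + 1) → F) := fun z q =>
      Fin.cases (z.1 q.2) (fun i => z.2 (i, q.2)) q.1
    have hψ : Function.Injective ψ := by
      rintro ⟨a, b⟩ ⟨a', b'⟩ h
      have e1 : a = a' := by
        funext j
        exact congrFun h (0, j)
      have e2 : b = b' := by
        funext q
        exact congrFun h (q.1.succ, q.2)
      rw [e1, e2]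
    rw [← Set.ncard_image_of_injective _ hψ]
    refine Set.ncard_le_ncard ?_ (Set.toFinite _)
    rintro _ ⟨z, hz, rfl⟩
    rw [Finset.mem_coe, Finset.mem_sigma] at hz
    obtain ⟨d, T, r, r', h1, h2, h3, h4, h5, h6, h7, h8⟩ := (Finset.mem_filter.1 hz.2).2
    have hev : ∀ t : F, (fs s fun i => gp (ψ z) i.succ).eval t =
        fs s fun i => (bF fun j => z.2 (i, j)).eval t := fun t =>
      fs_map (evalRingHom t) s _
    refine ⟨d, T, r, r', h1, h2, h3, h4, h5, ?_, ?_, ?_⟩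
    · rw [hev]; exact h6
    · rw [hev]; exact h7
    · intro y
      rw [hev, hev]
      exact h8 y
  have h2 : ((∑ c0 ∈ A, (Finset.univ.filter fun c' : Fin N × Fin (n + 1) → F =>
      S c0 c').card : ℕ) : ℝ) ≤ ((PE (R := F) ℓ N n s).ncard : ℝ) := by
    exact_mod_cast h1
  refine le_trans ?_ h2
  rw [Nat.cast_sum]
  have h3 : (A.card : ℝ) * ((1 / 64 : ℝ) * (q : ℝ) ^ (N * (n + 1))) ≤
      ∑ c0 ∈ A, ((Finset.univ.filter fun c' : Fin N × Fin (n + 1) → F =>
        S c0 c').card : ℝ) := by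
    rw [← nsmul_eq_mul, ← Finset.sum_const]
    exact Finset.sum_le_sum fun c0 hc0 => hS c0 hc0
  refine le_trans ?_ h3
  have hD : (0 : ℝ) < (D4 n : ℝ) := by exact_mod_cast D4_pos n
  have hA' : (q : ℝ) ^ (n + 1) ≤ (D4 n : ℝ) * (A.card : ℝ) := by
    rw [hqd]
    exact_mod_cast hA
  have h4 : (1 / (64 * D4 n : ℝ)) * (q : ℝ) ^ Fintype.card (Fin (N + 1) × Fin (n + 1)) =
      (1 / (D4 n : ℝ)) * (q : ℝ) ^ (n + 1) * ((1 / 64 : ℝ) * (q : ℝ) ^ (N * (n + 1))) := by
    rw [Fintype.card_prod, Fintype.card_fin, Fintype.card_fin, Nat.add_mul, one_mul, pow_add]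
    field_simp
  rw [← hqd, h4]
  refine mul_le_mul_of_nonneg_right ?_ (by positivity)
  rw [div_mul_eq_mul_div, one_mul, div_le_iff₀ hD]
  linarith

end count

end Pool.Agent.J6H65.SG
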