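import Pool.Agent.J6H65.SG.PairL

/-!
From the events modulo maximal ideals to the properties of the polynomials over the fraction field.
-/

set_option autoImplicit false
set_option linter.all false

open Polynomial IsLocalRing
open scoped Classical

namespace Pool.Agent.J6H65.SG

open Pool.Agent.X243.Gen Pool.Agent.X243.Sol Pool.Agent.X243.Tate Pool.Agent.Y160.T3
open Pool.Agent.R431.SG (fs)

section ev

variable {R k : Type} [CommRing R] [IsDomain R] [IsIntegrallyClosed R] [IsNoetherianRing R]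
  [Field k] [Algebra R k] [IsFractionRing R k]

theorem evB {N : ℕ} {β : R} {B : ℕ} (hN : 3 ≤ N) {G : R[X]} (hG : G.natDegree ≤ N)
    (hev : ∀ t : Fin 3, ∃ p ∈ Zb R β B, ∃ w ∈ Ev (R ⧸ p) N t,
      bF w = G.map (Ideal.Quotient.mk p)) :
    FF N (G.map (algebraMap R k)) := by
  obtain ⟨p0, z0, w0, e0, g0⟩ := hev 0
  obtain ⟨p1, z1, w1, e1, g1⟩ := hev 1
  obtain ⟨p2, z2, w2, e2, g2⟩ := hev 2
  have f0 : I1 N (bF w0) := e0
  have f1 : I2 N (bF w1) := e1
  have f2 : I3 N (bF w2) := e2
  rw [g0] at f0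
  rw [g1] at f1
  rw [g2] at f2
  haveI := z0.1
  haveI := z1.1
  haveI := z2.1
  haveI := z0.2.1
  haveI := z1.2.1
  haveI := z2.2.1
  exact gen_full hN hG f0 f1 f2

theorem nopow_of {ℓ N n : ℕ} (hℓ : 0 < ℓ) {c : Fin (N + 1) × Fin (n + 1) → R}
    (hF : FF n ((gp c 0).map (algebraMap R k))) {s : Fin N × Fin N → ℕ} {p : Ideal R}
    (hm : p.IsMaximal) (hf : Finite (R ⧸ p))
    (h : (fun j => Ideal.Quotient.mk p (c j)) ∈ PE (R := R ⧸ p) ℓ N n s) :
    NoPow ℓ ((gp c 0).map (algebraMap R k))
      ((fs s fun i => gp c i.succ).map (algebraMap R k)) := by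
  intro E _ _ _ x y hx hy hxy
  haveI := hm
  haveI := hf
  obtain ⟨-, hsep, hfull⟩ := hF
  haveI : FiniteDimensional k E :=
    IsSplittingField.finiteDimensional E ((gp c 0).map (algebraMap R k))
  haveI : IsGalois k E := IsGalois.of_separable_splitting_field hsep
  obtain ⟨d, S, c₁, c₂, hd, hS, hfac, h1, h2, h3, h4, h5⟩ := h
  have e0 : gp (fun j => Ideal.Quotient.mk p (c j)) 0 = (gp c 0).map (Ideal.Quotient.mk p) :=
    (gp_map _ c 0).symm
  have e1 : (fs s fun i : Fin N => gp (fun j => Ideal.Quotient.mk p (c j)) i.succ) =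
      (fs s fun i => gp c i.succ).map (Ideal.Quotient.mk p) := by
    have := fs_map (mapRingHom (Ideal.Quotient.mk p)) s fun i => gp c i.succ
    rw [coe_mapRingHom] at this
    rw [this]
    congr 1
    funext i
    exact (gp_map _ c _).symm
  rw [e0] at hfac
  rw [e1] at h3 h4 h5
  obtain ⟨θ₁, θ₂, n1, n2, hne⟩ := pair_frob p k hℓ (gp_nd c 0) hd hS hfac h1 h2 h3 h4 h5 E
  have hθ : θ₁ ≠ θ₂ := by
    rintro rfl
    exact hne 1 (by rw [one_pow, one_mul])
  have hsurj := hfull E (IsSplittingField.splits E _)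
  -- a permutation
  obtain ⟨c, hc1, hc2⟩ : ∃ c : Equiv.Perm (((gp c 0).map (algebraMap R k)).rootSet E),
      c ⟨x, hx⟩ = θ₁ ∧ c ⟨y, hy⟩ = θ₂ := by
    refine ⟨Equiv.swap (Equiv.swap ⟨x, hx⟩ θ₁ ⟨y, hy⟩) θ₂ * Equiv.swap ⟨x, hx⟩ θ₁, ?_, ?_⟩
    · rw [Equiv.Perm.mul_apply, Equiv.swap_apply_left]
      apply Equiv.swap_apply_of_ne_of_ne
      · intro h2
        apply hxy
        have h3 : Equiv.swap (⟨x, hx⟩ : ((gp c 0).map (algebraMap R k)).rootSet E) θ₁ ⟨x, hx⟩ =
            Equiv.swap ⟨x, hx⟩ θ₁ ⟨y, hy⟩ := by rw [Equiv.swap_apply_left]; exact h2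
        exact Subtype.mk.inj ((Equiv.swap _ θ₁).injective h3)
      · exact hθ
    · rw [Equiv.Perm.mul_apply, Equiv.swap_apply_left]
  obtain ⟨σ, hσ⟩ := hsurj c
  have s1 : σ x = θ₁ := by
    rw [← hc1, ← hσ]
    rfl
  have s2 : σ y = θ₂ := by
    rw [← hc2, ← hσ]
    rfl
  have t1 : ∀ g : k[X], σ (aeval x g) = aeval (θ₁ : E) g := fun g => by
    rw [← s1]; exact (aeval_algHom_apply σ x g).symm
  have t2 : ∀ g : k[X], σ (aeval y g) = aeval (θ₂ : E) g := fun g => by
    rw [← s2]; exact (aeval_algHom_apply σ y g).symm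
  refine ⟨?_, ?_⟩
  · intro h0
    apply n1
    rw [← t1, h0, map_zero]
  · intro z hz
    apply hne (σ z)
    rw [← t1, ← t2, hz, map_mul, map_pow]

end ev

section ext

variable {k : Type} [Field k] {F : k[X]} {L L' : Type} [Field L] [Field L'] [Algebra k L]
  [Algebra L L'] [Algebra k L'] [IsScalarTower k L L'] [IsSepClosure L L']

theorem ne_of_nopow {k : Type} [Field k] {F : k[X]} {L' : Type} [Field L'] [Algebra k L']
    [IsSepClosed L'] (hF : F.Separable) (h2 : 2 ≤ F.natDegree) {ℓ : ℕ} {f : k[X]}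
    (hf : NoPow ℓ F f) (w : L') (hw : w ∈ F.rootSet L') : aeval w f ≠ 0 := by
  intro h0
  have hspl : (F.map (algebraMap k L')).Splits := IsSepClosed.splits_of_separable _ hF.map
  have hE0 : IsSplittingField k (IntermediateField.adjoin k (F.rootSet L')) F :=
    IntermediateField.adjoin_rootSet_isSplittingField hspl
  have hcard : Fintype.card (F.rootSet L') = F.natDegree := card_rootSet_eq_natDegree hF hspl
  obtain ⟨w', hw', hww⟩ : ∃ w' ∈ F.rootSet L', w ≠ w' := by
    by_contra hcon
    push Not at hcon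
    have h3 : Fintype.card (F.rootSet L') ≤ 1 := by
      rw [Fintype.card_le_one_iff]
      intro a b
      apply Subtype.ext
      rw [← hcon a.1 a.2, ← hcon b.1 b.2]
    omega
  have m1 : ∀ u ∈ F.rootSet L', u ∈ IntermediateField.adjoin k (F.rootSet L') :=
    fun u hu => IntermediateField.subset_adjoin _ _ hu
  have m2 : ∀ (u : L') (hu : u ∈ F.rootSet L'), (⟨u, m1 u hu⟩ :
      IntermediateField.adjoin k (F.rootSet L')) ∈
        F.rootSet (IntermediateField.adjoin k (F.rootSet L')) := by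
    intro u hu
    rw [mem_rootSet]
    refine ⟨hF.ne_zero, ?_⟩
    apply (algebraMap (IntermediateField.adjoin k (F.rootSet L')) L').injective
    rw [← aeval_algebraMap_apply, map_zero]
    exact aeval_eq_zero_of_mem_rootSet hu
  have h3 := (hf _ _ _ (m2 w hw) (m2 w' hw') (fun h => hww (Subtype.mk.inj h))).1
  apply h3
  apply (algebraMap (IntermediateField.adjoin k (F.rootSet L')) L').injective
  rw [← aeval_algebraMap_apply, map_zero]
  exact h0

/-- The polynomial remains irreducible. -/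
theorem irr_L (hF : F.Separable) (h5 : 5 ≤ F.natDegree) (hfull : FullG F)
    (M : IntermediateField k L') [Normal k M]
    (hM : ∀ x : L, IsSeparable k x → algebraMap L L' x ∈ M)
    (hns : ¬ (F.map (algebraMap k M)).Splits) : Irreducible (F.map (algebraMap k L)) := by
  haveI : IsSepClosed L' := IsSepClosure.sep_closed L
  have hspl : (F.map (algebraMap k L')).Splits := IsSepClosed.splits_of_separable _ hF.map
  have hcard : Fintype.card (F.rootSet L') = F.natDegree := card_rootSet_eq_natDegree hF hspl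
  obtain ⟨θ, hθ⟩ : ∃ x, x ∈ F.rootSet L' := by
    by_contra hno
    push Not at hno
    have h3 : Fintype.card (F.rootSet L') = 0 := by
      rw [Fintype.card_eq_zero_iff]
      exact ⟨fun z => hno z.1 z.2⟩
    omega
  have hθ0 : aeval θ (F.map (algebraMap k L)) = 0 := by
    rw [aeval_map_algebraMap]
    exact aeval_eq_zero_of_mem_rootSet hθ
  have hf0 : F.map (algebraMap k L) ≠ 0 :=
    (Polynomial.map_ne_zero_iff (algebraMap k L).injective).2 hF.ne_zero
  have hint : IsIntegral L θ := by
    rw [← isAlgebraic_iff_isIntegral]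
    exact ⟨_, hf0, hθ0⟩
  obtain ⟨m, hm⟩ : ∃ m, m = minpoly L θ := ⟨_, rfl⟩
  have hm0 : m ≠ 0 := hm ▸ minpoly.ne_zero hint
  have hmm0 : m.map (algebraMap L L') ≠ 0 :=
    (Polynomial.map_ne_zero_iff (algebraMap L L').injective).2 hm0
  have hall : ∀ x ∈ F.rootSet L', aeval x m = 0 := by
    intro x hx
    by_cases hne : θ = x
    · rw [← hne, hm, minpoly.aeval]
    · obtain ⟨g, g1, -⟩ := alt_L (L := L) hF h5 hfull M hM hns hθ hx hx hθ hne (Ne.symm hne)
      rw [← g1, aeval_algHom_apply g θ m, hm, minpoly.aeval, map_zero]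
  have hle : F.natDegree ≤ m.natDegree := by
    have h6 : Finset.univ.image (fun x : F.rootSet L' => (x : L')) ⊆
        (m.map (algebraMap L L')).roots.toFinset := by
      intro x hx
      obtain ⟨y, -, rfl⟩ := Finset.mem_image.1 hx
      rw [Multiset.mem_toFinset, mem_roots hmm0, IsRoot.def, eval_map_algebraMap]
      exact hall y.1 y.2
    calc F.natDegree = (Finset.univ.image (fun x : F.rootSet L' => (x : L'))).card := by
          rw [Finset.card_image_of_injective _ Subtype.val_injective, Finset.card_univ, hcard]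
      _ ≤ (m.map (algebraMap L L')).roots.toFinset.card := Finset.card_le_card h6
      _ ≤ Multiset.card (m.map (algebraMap L L')).roots := Multiset.toFinset_card_le _
      _ ≤ (m.map (algebraMap L L')).natDegree := card_roots' _
      _ = m.natDegree := natDegree_map _
  have hdvd : m ∣ F.map (algebraMap k L) := by
    rw [hm]
    exact minpoly.dvd L θ hθ0
  obtain ⟨q, hq⟩ := hdvd
  have hq0 : q ≠ 0 := by
    rintro rfl
    exact hf0 (by rw [hq, mul_zero])
  have hqd : q.natDegree = 0 := by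
    have := natDegree_mul hm0 hq0
    rw [← hq, natDegree_map] at this
    omega
  have hqu : IsUnit q := by
    rw [isUnit_iff_degree_eq_zero, degree_eq_natDegree hq0, hqd]
    rfl
  have hass : Associated m (F.map (algebraMap k L)) := by
    rw [hq]
    exact associated_mul_unit_right m q hqu
  refine hass.irreducible ?_
  rw [hm]
  exact minpoly.irreducible hint

end ext

end Pool.Agent.J6H65.SG
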