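import Pool.Agent.J6H65.SG.CritR

/-!
Finitely generated groups, and the assembly of the first theorem.
-/

set_option autoImplicit false
set_option linter.all false

open Polynomial IsLocalRing
open scoped Classical

namespace Pool.Agent.J6H65.SG

theorem finite_of_mul {G : Type} [CommGroup G] {ℓ : ℕ} (hℓ : ℓ.Prime)
    (h : ∀ x : G, ∃ t y : G, t ^ ℓ = 1 ∧ x = t * y ^ ℓ) (hfg : Group.FG G) : Finite G := by
  obtain ⟨A, hA⟩ : ∃ A : Type, A = Additive G := ⟨_, rfl⟩
  have h' : ∀ P : Additive G, ∃ Q T : Additive G, ℓ • T = 0 ∧ P = ℓ • Q + T := by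
    intro P
    obtain ⟨t, y, ht, hx⟩ := h P.toMul
    refine ⟨Additive.ofMul y, Additive.ofMul t, ?_, ?_⟩
    · rw [← ofMul_pow, ht]
      rfl
    · rw [← ofMul_pow, ← ofMul_mul, mul_comm, ← hx]
      rfl
  let H : AddSubgroup (Additive G) :=
    { carrier := {T | ℓ • T = 0}
      zero_mem' := smul_zero _
      add_mem' := fun {x y} hx hy => by
        show ℓ • (x + y) = 0
        rw [smul_add, show ℓ • x = 0 from hx, show ℓ • y = 0 from hy, add_zero]
      neg_mem' := fun {x} hx => by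
        show ℓ • (-x) = 0
        rw [smul_neg, show ℓ • x = 0 from hx, neg_zero] }
  have hfgA : AddGroup.FG (Additive G) := inferInstance
  haveI : AddGroup.FG (Additive G ⧸ H) := QuotientAddGroup.fg H
  haveI : Module.Finite ℤ (Additive G ⧸ H) := Module.Finite.iff_addGroup_fg.2 inferInstance
  obtain ⟨r, hr, hr'⟩ := Submodule.exists_sub_one_mem_and_smul_eq_zero_of_fg_of_le_smul
    (Ideal.span {(ℓ : ℤ)}) (⊤ : Submodule ℤ (Additive G ⧸ H)) Module.Finite.fg_top (by
      intro x _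
      obtain ⟨P, rfl⟩ := QuotientAddGroup.mk_surjective x
      obtain ⟨Q, P1, h1, e⟩ := h' P
      have e2 : ((P : Additive G) : Additive G ⧸ H) = (ℓ : ℤ) • ((Q : Additive G) : Additive G ⧸ H) := by
        rw [e, QuotientAddGroup.mk_add, (QuotientAddGroup.eq_zero_iff P1).2 h1, add_zero,
          ← natCast_zsmul, QuotientAddGroup.mk_zsmul]
      rw [e2]
      exact Submodule.smul_mem_smul (Ideal.mem_span_singleton_self _) trivial)
  have hr0 : r ≠ 0 := by
    rintro rfl
    obtain ⟨c, hc⟩ := Ideal.mem_span_singleton'.1 hr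
    have h2 : (ℓ : ℤ) ∣ 1 := ⟨-c, by linarith⟩
    have h3 := Int.natAbs_dvd_natAbs.2 h2
    simp only [Int.natAbs_natCast, Int.natAbs_one, Nat.dvd_one] at h3
    exact hℓ.one_lt.ne' h3
  have htor : IsAddTorsion (Additive G) := by
    intro P
    have h1 := hr' ((P : Additive G) : Additive G ⧸ H) trivial
    have h3 : (((r • P : Additive G)) : Additive G ⧸ H) = 0 := by
      rw [← h1]
      rfl
    have h4 : ℓ • (r • P) = 0 := (QuotientAddGroup.eq_zero_iff _).1 h3
    have h5 : ((ℓ : ℤ) * r) • P = 0 := by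
      rw [mul_smul, ← h4, ← natCast_zsmul (r • P) ℓ]
    exact isOfFinAddOrder_iff_zsmul_eq_zero.2
      ⟨ℓ * r, mul_ne_zero (by exact_mod_cast hℓ.ne_zero) hr0, h5⟩
  have : Finite (Additive G) := AddCommGroup.finite_of_fg_isAddTorsion (Additive G) htor
  exact this

section hyp

open Pool.Agent.X243.Gen Pool.Agent.X243.Sol Pool.Agent.X243.Tate Pool.Agent.Y160.T3
open Pool.Agent.R431.SG (fs)

theorem hyp_of {R k : Type} [CommRing R] [IsDomain R] [IsIntegrallyClosed R] [IsNoetherianRing R]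
    [Field k] [Algebra R k] [IsFractionRing R k] {β : R} {ℓ N n B : ℕ} (hℓ : ℓ.Prime) (hn : 5 ≤ n)
    {c : Fin (N + 1) × Fin (n + 1) → R}
    (h : ∀ s : Sx ℓ N, ∃ p ∈ Zb R β B, (fun j => Ideal.Quotient.mk p (c j)) ∈ GE ℓ N n (R ⧸ p) s) :
    Hyp ℓ N n (fun i => (gp c i).map (algebraMap R k)) := by
  have h0 : FF n ((gp c 0).map (algebraMap R k)) := by
    refine evB (β := β) (B := B) (by omega) (gp_nd c 0) fun t => ?_
    obtain ⟨p, hp, e⟩ := h (Sum.inl t)
    exact ⟨p, hp, _, e, (gp_map _ c 0).symm⟩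
  refine ⟨h0, ?_, ?_⟩
  · intro a b hab
    have h1 : FF n ((gp c a.succ - gp c b.succ).map (algebraMap R k)) := by
      refine evB (β := β) (B := B) (by omega)
        ((natDegree_sub_le _ _).trans (max_le (gp_nd c _) (gp_nd c _))) fun t => ?_
      obtain ⟨p, hp, e⟩ := h (Sum.inr (Sum.inl (⟨(a, b), hab⟩, t)))
      refine ⟨p, hp, _, e, ?_⟩
      rw [Polynomial.map_sub, gp_map, gp_map]
      exact (bF_sub _ _).symm
    rw [Polynomial.map_sub] at h1
    exact h1
  · intro s s1 s2 s3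
    obtain ⟨p, hp, e⟩ := h (Sum.inr (Sum.inr ⟨fun q => ⟨s q, s2 q⟩, s1, s3⟩))
    have h2 := nopow_of (k := k) hℓ.pos h0 hp.1 hp.2.1 e
    have h3 : (fs s fun i => (gp c i.succ).map (algebraMap R k)) =
        (fs s fun i => gp c i.succ).map (algebraMap R k) := by
      have := fs_map (mapRingHom (algebraMap R k)) s fun i => gp c i.succ
      rw [coe_mapRingHom] at this
      exact this.symm
    rw [h3]
    exact h2

end hyp

theorem finite_of_add {A : Type} [AddCommGroup A] {ℓ : ℕ} (hℓ : ℓ.Prime)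
    (h : ∀ x : A, ∃ t y : A, ℓ • t = 0 ∧ x = t + ℓ • y) (hfg : AddGroup.FG A) : Finite A := by
  have h1 : Finite (Multiplicative A) := by
    refine finite_of_mul hℓ (fun x => ?_) inferInstance
    obtain ⟨t, y, h2, h3⟩ := h x.toAdd
    exact ⟨Multiplicative.ofAdd t, Multiplicative.ofAdd y, h2, h3⟩
  exact h1

end Pool.Agent.J6H65.SG
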