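import Pool.Agent.J6H65.SG.Alt

/-!
Quotients of values of a polynomial at two zeros of a polynomial with full symmetric Galois group, over
extensions of the ground field.
-/

set_option autoImplicit false
set_option linter.all false

open Polynomial
open scoped Classical

namespace Pool.Agent.J6H65.SG

open Pool.Agent.X243.Gen Pool.Agent.X243.Sol Pool.Agent.X243.Tate

section ext

variable {k : Type} [Field k] {F : k[X]} {L L' : Type} [Field L] [Field L'] [Algebra k L]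
  [Algebra L L'] [Algebra k L'] [IsScalarTower k L L'] [IsSepClosure L L']

/-- The quotients of the values of `f` at the zeros of `F` are not `ℓ`-th powers in the splitting
field. -/
def NoPow (ℓ : ℕ) (F f : k[X]) : Prop :=
  ∀ (E : Type) [Field E] [Algebra k E] [IsSplittingField k E F] (x y : E), x ∈ F.rootSet E →
    y ∈ F.rootSet E → x ≠ y → aeval x f ≠ 0 ∧ ∀ z : E, aeval x f ≠ z ^ ℓ * aeval y f

theorem sep_of_pow [IsSepClosed L'] {ℓ : ℕ} (hℓ : 0 < ℓ) (hk : (ℓ : k) ≠ 0) {z a : L'}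
    (ha : IsSeparable k a) (ha0 : a ≠ 0) (hz : z ^ ℓ = a) : IsSeparable k z := by
  have hmem : a ∈ separableClosure k L' := mem_separableClosure_iff.2 ha
  obtain ⟨a', ha'⟩ : ∃ a' : separableClosure k L', (a' : L') = a := ⟨⟨a, hmem⟩, rfl⟩
  have h0 : a' ≠ 0 := by
    rintro rfl
    exact ha0 ha'.symm
  have hℓS : (ℓ : separableClosure k L') ≠ 0 := by
    intro h
    apply hk
    have h1 : algebraMap k (separableClosure k L') (ℓ : k) = 0 := by rw [map_natCast]; exact h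
    exact (map_eq_zero _).1 h1
  have hsep : (X ^ ℓ - C a' : (separableClosure k L')[X]).Separable :=
    separable_X_pow_sub_C a' hℓS h0
  have hz' : aeval z (X ^ ℓ - C a' : (separableClosure k L')[X]) = 0 := by
    rw [map_sub, map_pow, aeval_X, aeval_C, sub_eq_zero, hz]
    exact ha'.symm
  have h2 : IsSeparable (separableClosure k L') z := hsep.of_dvd (minpoly.dvd _ _ hz')
  exact IsSeparable.of_algebra_isSeparable_of_isSeparable k h2

omit [Algebra k L] [Algebra L L'] [Algebra k L'] [IsScalarTower k L L'] [IsSepClosure L L'] in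
theorem alt_irrel {Z : Type} [Fintype Z] (i j : DecidableEq Z) {c : Equiv.Perm Z}
    (h : c ∈ @alternatingGroup Z _ i) : c ∈ @alternatingGroup Z _ j := by
  rw [Subsingleton.elim j i]
  exact h

theorem pair_L (hF : F.Separable) (h5 : 5 ≤ F.natDegree) (hfull : FullG F)
    (M : IntermediateField k L') [Normal k M]
    (hM : ∀ x : L, IsSeparable k x → algebraMap L L' x ∈ M)
    (hns : ¬ (F.map (algebraMap k M)).Splits) {ℓ : ℕ} (hℓ : 0 < ℓ) (hk : (ℓ : k) ≠ 0) {ζ : k}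
    (hζ : IsPrimitiveRoot ζ ℓ) {f : k[X]} (hf : NoPow ℓ F f) {x y : L'} (hx : x ∈ F.rootSet L')
    (hy : y ∈ F.rootSet L') (hxy : x ≠ y) {z : L'} (hz : aeval x f = z ^ ℓ * aeval y f) :
    ∃ g : L' ≃ₐ[L] L', g x = x ∧ g y = y ∧ g z ≠ z := by
  haveI : IsSepClosed L' := IsSepClosure.sep_closed L
  haveI : IsGalois L L' := IsSepClosure.isGalois
  haveI : NeZero ℓ := ⟨hℓ.ne'⟩
  by_contra hcon
  push Not at hcon
  have hspl : (F.map (algebraMap k L')).Splits := IsSepClosed.splits_of_separable _ hF.map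
  have hsepx : ∀ w ∈ F.rootSet L', IsSeparable k w := by
    intro w hw
    exact hF.of_dvd (minpoly.dvd _ _ (aeval_eq_zero_of_mem_rootSet hw))
  have hsepv : ∀ w ∈ F.rootSet L', ∀ h : k[X], IsSeparable k (aeval w h) := by
    intro w hw h
    have h1 : w ∈ separableClosure k L' := mem_separableClosure_iff.2 (hsepx w hw)
    have h2 : aeval w h = ((aeval (⟨w, h1⟩ : separableClosure k L') h : separableClosure k L') : L') :=
      (aeval_algebraMap_apply L' (⟨w, h1⟩ : separableClosure k L') h)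
    rw [h2]
    exact mem_separableClosure_iff.1 (Subtype.coe_prop _)
  -- the splitting field inside `L'`
  have hE0 : IsSplittingField k (IntermediateField.adjoin k (F.rootSet L')) F :=
    IntermediateField.adjoin_rootSet_isSplittingField hspl
  have hne0 : ∀ w ∈ F.rootSet L', aeval w f ≠ 0 := by
    intro w hw h0
    obtain ⟨w', hw', hww⟩ : ∃ w' ∈ F.rootSet L', w ≠ w' := by
      by_cases h : w = x
      · exact ⟨y, hy, h ▸ hxy⟩
      · exact ⟨x, hx, h⟩
    have m1 : ∀ u ∈ F.rootSet L', u ∈ IntermediateField.adjoin k (F.rootSet L') :=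
      fun u hu => IntermediateField.subset_adjoin _ _ hu
    have m2 : ∀ (u : L') (hu : u ∈ F.rootSet L'), (⟨u, m1 u hu⟩ :
        IntermediateField.adjoin k (F.rootSet L')) ∈
          F.rootSet (IntermediateField.adjoin k (F.rootSet L')) := by
      intro u hu
      rw [mem_rootSet]
      refine ⟨hF.ne_zero, ?_⟩
      apply (algebraMap (IntermediateField.adjoin k (F.rootSet L')) L').injective
      rw [← aeval_algebraMap_apply, map_zero]
      exact aeval_eq_zero_of_mem_rootSet hu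
    have h3 := (hf _ _ _ (m2 w hw) (m2 w' hw') (fun h => hww (Subtype.mk.inj h))).1
    apply h3
    apply (algebraMap (IntermediateField.adjoin k (F.rootSet L')) L').injective
    rw [← aeval_algebraMap_apply, map_zero]
    exact h0
  have hz0 : z ≠ 0 := by
    rintro rfl
    rw [zero_pow hℓ.ne', zero_mul] at hz
    exact hne0 x hx hz
  have hzℓ : z ^ ℓ = aeval x f / aeval y f := by
    rw [hz, mul_div_cancel_right₀ _ (hne0 y hy)]
  have hzsep : IsSeparable k z := by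
    refine sep_of_pow hℓ hk (a := aeval x f / aeval y f) ?_ (div_ne_zero (hne0 x hx) (hne0 y hy))
      hzℓ
    have m1 : aeval x f ∈ separableClosure k L' := mem_separableClosure_iff.2 (hsepv x hx f)
    have m2 : aeval y f ∈ separableClosure k L' := mem_separableClosure_iff.2 (hsepv y hy f)
    exact mem_separableClosure_iff.1 (div_mem m1 m2)
  -- a finite Galois extension
  obtain ⟨P, hP⟩ : ∃ P : k[X], P = F * minpoly k z := ⟨_, rfl⟩
  have hzi : IsIntegral k z := hzsep.isIntegral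
  have hP0 : P ≠ 0 := by rw [hP]; exact mul_ne_zero hF.ne_zero (minpoly.ne_zero hzi)
  have hPspl : (P.map (algebraMap k L')).Splits := by
    rw [hP, Polynomial.map_mul]
    exact hspl.mul (IsSepClosed.splits_of_separable _ (Separable.map hzsep))
  obtain ⟨N, hN⟩ : ∃ N : IntermediateField k L', N = IntermediateField.adjoin k (P.rootSet L') :=
    ⟨_, rfl⟩
  haveI hNs : IsSplittingField k N P := by
    rw [hN]
    exact IntermediateField.adjoin_rootSet_isSplittingField hPspl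
  haveI hNf : FiniteDimensional k N := IsSplittingField.finiteDimensional N P
  have hsub : F.rootSet L' ⊆ P.rootSet L' := by
    intro w hw
    rw [mem_rootSet] at hw ⊢
    refine ⟨hP0, ?_⟩
    rw [hP, map_mul, hw.2, zero_mul]
  have hzP : z ∈ P.rootSet L' := by
    rw [mem_rootSet]
    refine ⟨hP0, ?_⟩
    rw [hP, map_mul, minpoly.aeval, mul_zero]
  have hPsep : ∀ w ∈ P.rootSet L', IsSeparable k w := by
    intro w hw
    have h1 := aeval_eq_zero_of_mem_rootSet hw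
    rw [hP, map_mul, mul_eq_zero] at h1
    rcases h1 with h1 | h1
    · exact hF.of_dvd (minpoly.dvd _ _ h1)
    · exact Separable.of_dvd hzsep (minpoly.dvd _ _ h1)
  haveI hNsep : Algebra.IsSeparable k N := by
    rw [hN]
    exact (IntermediateField.isSeparable_adjoin_iff_isSeparable k L').2 hPsep
  haveI hNn : Normal k N := Normal.of_isSplittingField P
  haveI hNg : IsGalois k N := ⟨⟩
  have hNmem : ∀ w ∈ P.rootSet L', w ∈ N := by
    intro w hw
    rw [hN]
    exact IntermediateField.subset_adjoin _ _ hw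
  obtain ⟨x₁, rfl⟩ : ∃ x₁ : N, (x₁ : L') = x := ⟨⟨x, hNmem x (hsub hx)⟩, rfl⟩
  obtain ⟨y₁, rfl⟩ : ∃ y₁ : N, (y₁ : L') = y := ⟨⟨y, hNmem y (hsub hy)⟩, rfl⟩
  obtain ⟨z₁, rfl⟩ : ∃ z₁ : N, (z₁ : L') = z := ⟨⟨z, hNmem z hzP⟩, rfl⟩
  have hcoe : ∀ (w : N) (h : k[X]), aeval (w : L') h = ((aeval w h : N) : L') := fun w h =>
    aeval_algebraMap_apply L' w h
  have hrN : ∀ w : N, w ∈ F.rootSet N ↔ (w : L') ∈ F.rootSet L' := by
    intro w
    rw [mem_rootSet, mem_rootSet, hcoe]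
    refine and_congr_right fun _ => ?_
    exact ⟨fun h => by rw [h]; rfl, fun h => Subtype.ext h⟩
  have hsplN : (F.map (algebraMap k N)).Splits := by
    apply IntermediateField.splits_of_splits hspl
    intro w hw
    exact hNmem w (hsub hw)
  have hsurj := hfull N hsplN
  have hcard : Nat.card (F.rootSet N) = F.natDegree := by
    rw [Nat.card_eq_fintype_card, card_rootSet_eq_natDegree hF hsplN]
  obtain ⟨v, hv⟩ : ∃ v : N → N, ∀ w, v w = aeval w f := ⟨fun w => aeval w f, fun _ => rfl⟩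
  have hv0 : ∀ w ∈ F.rootSet N, v w ≠ 0 := by
    intro w hw h0
    apply hne0 w ((hrN w).1 hw)
    rw [hcoe, ← hv, h0]
    rfl
  have hxN : x₁ ∈ F.rootSet N := (hrN x₁).2 hx
  have hyN : y₁ ∈ F.rootSet N := (hrN y₁).2 hy
  have hxyN : x₁ ≠ y₁ := fun h => hxy (by rw [h])
  have hzN : z₁ ^ ℓ = v x₁ / v y₁ := by
    apply Subtype.ext
    have h1 := hzℓ
    rw [hcoe, hcoe, ← hv, ← hv] at h1
    exact h1
  have hz₁0 : z₁ ≠ 0 := fun h => hz0 (by rw [h]; rfl)
  have hgv : ∀ (g : N ≃ₐ[k] N) (w : N), g (v w) = v (g w) := by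
    intro g w
    rw [hv, hv]
    exact (aeval_algHom_apply g w f).symm
  -- the subfield generated by the roots
  obtain ⟨E1, hE1⟩ : ∃ E1 : IntermediateField k N, E1 = IntermediateField.adjoin k (F.rootSet N) :=
    ⟨_, rfl⟩
  have hE1s : IsSplittingField k E1 F := by
    rw [hE1]
    exact IntermediateField.adjoin_rootSet_isSplittingField hsplN
  have hE1mem : ∀ w ∈ F.rootSet N, w ∈ E1 := by
    intro w hw
    rw [hE1]
    exact IntermediateField.subset_adjoin _ _ hw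
  have hE1fix : ∀ g : N ≃ₐ[k] N, (∀ w ∈ F.rootSet N, g w = w) → ∀ w ∈ E1, g w = w := by
    intro g hg w hw
    rw [hE1] at hw
    induction hw using IntermediateField.adjoin_induction with
    | mem x hx => exact hg x hx
    | algebraMap r => exact g.commutes r
    | add x y _ _ hx hy => rw [map_add, hx, hy]
    | inv x _ hx => rw [map_inv₀, hx]
    | mul x y _ _ hx hy => rw [map_mul, hx, hy]
  have hE1v : ∀ w ∈ F.rootSet N, v w ∈ E1 := by
    intro w hw
    rw [hv]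
    have h1 : aeval w f = ((aeval (⟨w, hE1mem w hw⟩ : E1) f : E1) : N) :=
      aeval_algebraMap_apply N (⟨w, hE1mem w hw⟩ : E1) f
    rw [h1]
    exact Subtype.coe_prop _
  have hgr : ∀ (g : N ≃ₐ[k] N) (w : N), w ∈ F.rootSet N → g w ∈ F.rootSet N := by
    intro g w hw
    rw [mem_rootSet] at hw ⊢
    exact ⟨hw.1, by rw [aeval_algHom_apply g w F, hw.2, map_zero]⟩
  -- elements which fix everything
  have hfixz : ∀ g ∈ (ME N M).fixingSubgroup, (∀ w ∈ F.rootSet N, g w = w) → g z₁ = z₁ := by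
    intro g hg hgw
    obtain ⟨g', hg'⟩ := lift_fix' (L := L) (L' := L') M hM hg
    have h1 := hcon g' (by
      have := hg' x₁
      rw [hgw x₁ hxN] at this
      exact this) (by
      have := hg' y₁
      rw [hgw y₁ hyN] at this
      exact this)
    have h2 := hg' z₁
    apply Subtype.ext
    exact h2.symm.trans h1
  -- the root of unity
  have hζN : IsPrimitiveRoot (algebraMap k N ζ) ℓ := hζ.map_of_injective (algebraMap k N).injective
  have hroot : ∀ β : N ≃ₐ[k] N, (∀ w ∈ F.rootSet N, β w = w) → ∃ χ : k, χ ≠ 0 ∧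
      β z₁ = algebraMap k N χ * z₁ := by
    intro β hβ
    have h1 : (β z₁ / z₁) ^ ℓ = 1 := by
      rw [div_pow, ← map_pow, hzN, map_div₀, hgv, hgv, hβ _ hxN, hβ _ hyN, ← hzN, div_self]
      exact pow_ne_zero _ hz₁0
    obtain ⟨i, -, hi⟩ := hζN.eq_pow_of_pow_eq_one h1
    refine ⟨ζ ^ i, pow_ne_zero _ (hζ.ne_zero hℓ.ne'), ?_⟩
    rw [map_pow, hi, div_mul_cancel₀ _ hz₁0]
  have hcomm : ∀ α ∈ (ME N M).fixingSubgroup, α z₁ / z₁ ∈ E1 := by
    intro α hα
    rw [← IsGalois.fixedField_fixingSubgroup E1, IntermediateField.mem_fixedField_iff]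
    intro β hβ
    rw [IntermediateField.mem_fixingSubgroup_iff] at hβ
    have hβw : ∀ w ∈ F.rootSet N, β w = w := fun w hw => hβ w (hE1mem w hw)
    obtain ⟨χ, hχ0, hχ⟩ := hroot β hβw
    -- the commutator
    have hγ1 : α⁻¹ * β * α * β⁻¹ ∈ (ME N M).fixingSubgroup := by
      have h1 : β * α * β⁻¹ ∈ (ME N M).fixingSubgroup :=
        (ME_normal (E := N) M).conj_mem α hα β
      have h2 := Subgroup.mul_mem _ (Subgroup.inv_mem _ hα) h1
      rwa [← mul_assoc, ← mul_assoc] at h2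
    have hβi : ∀ w ∈ F.rootSet N, β⁻¹ w = w := by
      intro w hw
      have : β⁻¹ (β w) = w := β.symm_apply_apply w
      rwa [hβw w hw] at this
    have hγ2 : ∀ w ∈ F.rootSet N, (α⁻¹ * β * α * β⁻¹) w = w := by
      intro w hw
      show α⁻¹ (β (α (β⁻¹ w))) = w
      rw [hβi w hw, hβw _ (hgr α w hw)]
      exact α.symm_apply_apply w
    have h3 := hfixz _ hγ1 hγ2
    have h4 : α⁻¹ (β (α (β⁻¹ z₁))) = z₁ := h3
    have h5 : β⁻¹ z₁ = (algebraMap k N χ)⁻¹ * z₁ := by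
      have h6 : β⁻¹ (β z₁) = z₁ := β.symm_apply_apply z₁
      rw [hχ, map_mul] at h6
      have h7 : β⁻¹ (algebraMap k N χ) = algebraMap k N χ := (β⁻¹).commutes χ
      rw [h7] at h6
      have h8 : algebraMap k N χ ≠ 0 := (_root_.map_ne_zero _).2 hχ0
      rw [eq_inv_mul_iff_mul_eq₀ h8]
      exact h6
    have h6 : β (α (β⁻¹ z₁)) = α z₁ := by
      have h7 := congrArg α h4
      have h8 : α (α⁻¹ (β (α (β⁻¹ z₁)))) = β (α (β⁻¹ z₁)) := α.apply_symm_apply _
      rw [h8] at h7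
      exact h7
    rw [h5, map_mul, map_mul, map_inv₀, map_inv₀, α.commutes, β.commutes] at h6
    rw [map_div₀, hχ]
    have h8 : algebraMap k N χ ≠ 0 := (_root_.map_ne_zero _).2 hχ0
    rw [inv_mul_eq_iff_eq_mul₀ h8] at h6
    rw [h6]
    field_simp
  -- transport by even permutations
  have htr : ∀ x' ∈ F.rootSet N, ∀ y' ∈ F.rootSet N, x' ≠ y' →
      ∃ w ∈ E1, w ≠ 0 ∧ w ^ ℓ * (v x₁ / v y₁) = v x' / v y' := by
    intro x' hx' y' hy' hxy'
    obtain ⟨c, hc, c1, c2⟩ := even_two (Z := F.rootSet N)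
      (by rw [← Nat.card_eq_fintype_card, hcard]; omega)
      (a := ⟨x₁, hxN⟩) (b := ⟨y₁, hyN⟩) (a' := ⟨x', hx'⟩) (b' := ⟨y', hy'⟩)
      (fun h => hxyN (Subtype.mk.inj h)) (fun h => hxy' (Subtype.mk.inj h))
    obtain ⟨α, hα, hcα⟩ := even_fix (F := F) (E := N) (L' := L') hsplN hsurj
      (by rw [hcard]; exact h5) M hns c (alt_irrel _ _ hc)
    have a1 : α x₁ = x' := by
      have h1 := congrArg (fun z : F.rootSet N => (z : N)) c1
      rw [← hcα] at h1
      exact h1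
    have a2 : α y₁ = y' := by
      have h1 := congrArg (fun z : F.rootSet N => (z : N)) c2
      rw [← hcα] at h1
      exact h1
    refine ⟨α z₁ / z₁, hcomm α hα, div_ne_zero ((_root_.map_ne_zero _).2 hz₁0) hz₁0, ?_⟩
    rw [← hzN, div_pow, div_mul_cancel₀ _ (pow_ne_zero _ hz₁0), ← map_pow, hzN, map_div₀, hgv, hgv,
      a1, a2]
  -- two more roots
  haveI := Fintype.ofFinite (F.rootSet N)
  obtain ⟨t, ht⟩ : ∃ t : F.rootSet N, t ∉ ({⟨x₁, hxN⟩, ⟨y₁, hyN⟩} : Finset (F.rootSet N)) := by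
    by_contra hall
    push Not at hall
    have h3 := Finset.card_le_card (fun x _ => hall x : (Finset.univ : Finset (F.rootSet N)) ⊆ _)
    have h4 := Finset.card_le_two (a := (⟨x₁, hxN⟩ : F.rootSet N)) (b := ⟨y₁, hyN⟩)
    rw [Finset.card_univ, ← Nat.card_eq_fintype_card, hcard] at h3
    omega
  obtain ⟨t', ht'⟩ : ∃ t' : F.rootSet N,
      t' ∉ ({⟨x₁, hxN⟩, ⟨y₁, hyN⟩, t} : Finset (F.rootSet N)) := by
    by_contra hall
    push Not at hall
    have h3 := Finset.card_le_card (fun x _ => hall x : (Finset.univ : Finset (F.rootSet N)) ⊆ _)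
    have h4 := Finset.card_le_three (a := (⟨x₁, hxN⟩ : F.rootSet N)) (b := ⟨y₁, hyN⟩) (c := t)
    rw [Finset.card_univ, ← Nat.card_eq_fintype_card, hcard] at h3
    omega
  simp only [Finset.mem_insert, Finset.mem_singleton, not_or] at ht ht'
  have t1 : (t : N) ≠ x₁ := fun h => ht.1 (Subtype.ext h)
  have t2 : (t : N) ≠ y₁ := fun h => ht.2 (Subtype.ext h)
  have t3 : (t' : N) ≠ x₁ := fun h => ht'.1 (Subtype.ext h)
  have t5 : (t' : N) ≠ t := fun h => ht'.2.2 (Subtype.ext h)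
  obtain ⟨w1, m1, n1, e1⟩ := htr y₁ hyN t t.2 t2.symm
  obtain ⟨w2, m2, n2, e2⟩ := htr t t.2 x₁ hxN t1
  obtain ⟨w3, m3, n3, e3⟩ := htr t t.2 t' t'.2 t5.symm
  obtain ⟨w4, m4, n4, e4⟩ := htr t' t'.2 x₁ hxN t3
  obtain ⟨r, hr⟩ : ∃ r, r = v x₁ / v y₁ := ⟨_, rfl⟩
  have vx := hv0 x₁ hxN
  have vy := hv0 y₁ hyN
  have vt := hv0 t t.2
  have vt' := hv0 t' t'.2
  have hr0 : r ≠ 0 := by rw [hr]; exact div_ne_zero vx vy
  rw [← hr] at e1 e2 e3 e4
  have f1 : (w1 * w2) ^ ℓ * r ^ 3 = 1 := by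
    have : (w1 * w2) ^ ℓ * r ^ 3 = (w1 ^ ℓ * r) * (w2 ^ ℓ * r) * r := by ring
    rw [this, e1, e2, hr]
    field_simp
  have f2 : (w1 * w3 * w4) ^ ℓ * r ^ 4 = 1 := by
    have : (w1 * w3 * w4) ^ ℓ * r ^ 4 = (w1 ^ ℓ * r) * (w3 ^ ℓ * r) * (w4 ^ ℓ * r) * r := by ring
    rw [this, e1, e3, e4, hr]
    field_simp
  obtain ⟨s, hs⟩ : ∃ s, s = (w1 * w2) / (w1 * w3 * w4) := ⟨_, rfl⟩
  have hsE : s ∈ E1 := by
    rw [hs]
    exact div_mem (mul_mem m1 m2) (mul_mem (mul_mem m1 m3) m4)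
  have f3 : r = s ^ ℓ := by
    have g1 : (w1 * w3 * w4) ^ ℓ ≠ 0 := pow_ne_zero _ (mul_ne_zero (mul_ne_zero n1 n3) n4)
    rw [hs, div_pow, eq_div_iff g1]
    have g2 : r ^ 3 ≠ 0 := pow_ne_zero _ hr0
    apply mul_left_cancel₀ g2
    calc r ^ 3 * (r * (w1 * w3 * w4) ^ ℓ) = (w1 * w3 * w4) ^ ℓ * r ^ 4 := by ring
      _ = 1 := f2
      _ = r ^ 3 * (w1 * w2) ^ ℓ := by rw [← f1]; ring
  -- the contradiction
  obtain ⟨s₁, rfl⟩ : ∃ s₁ : E1, (s₁ : N) = s := ⟨⟨s, hsE⟩, rfl⟩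
  obtain ⟨x₂, hx₂⟩ : ∃ x₂ : E1, (x₂ : N) = x₁ := ⟨⟨x₁, hE1mem _ hxN⟩, rfl⟩
  obtain ⟨y₂, hy₂⟩ : ∃ y₂ : E1, (y₂ : N) = y₁ := ⟨⟨y₁, hE1mem _ hyN⟩, rfl⟩
  have hcoe2 : ∀ (w : E1) (h : k[X]), aeval (w : N) h = ((aeval w h : E1) : N) := fun w h =>
    aeval_algebraMap_apply N w h
  have hrE : ∀ w : E1, (w : N) ∈ F.rootSet N → w ∈ F.rootSet E1 := by
    intro w hw
    rw [mem_rootSet] at hw ⊢
    refine ⟨hw.1, Subtype.ext ?_⟩
    rw [← hcoe2, hw.2]
    rfl
  refine (hf E1 x₂ y₂ (hrE _ (by rw [hx₂]; exact hxN)) (hrE _ (by rw [hy₂]; exact hyN)) (fun h =>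
    hxyN (by rw [← hx₂, ← hy₂, h]))).2 s₁ ?_
  apply Subtype.ext
  have h9 : v x₁ = (s₁ : N) ^ ℓ * v y₁ := by
    rw [← f3, hr, div_mul_cancel₀ _ vy]
  rw [hv, hv, ← hx₂, ← hy₂, hcoe2, hcoe2] at h9
  exact h9

end ext

end Pool.Agent.J6H65.SG
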