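import Pool.Agent.J6H65.SG.Dn

/-!
A quotient of the values of a polynomial at two zeros of a polynomial which splits modulo a maximal
ideal.
-/

set_option autoImplicit false
set_option linter.all false

open Polynomial IsLocalRing
open scoped Classical

namespace Pool.Agent.J6H65.SG

open Pool.Agent.X243.Gen Pool.Agent.X243.Sol Pool.Agent.X243.Tate Pool.Agent.Y160.T3

section frob

variable {R k : Type} [CommRing R] [IsDomain R] [IsIntegrallyClosed R] [IsNoetherianRing R]
  [Field k] [Algebra R k] [IsFractionRing R k] (m : Ideal R) [m.IsMaximal] [Finite (R ⧸ m)]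

/-- values at integral elements after multiplication by a power of the leading coefficient -/
theorem int_aeval {E : Type} [Field E] [Algebra R E] {c : R} {θ : E}
    (hθ : IsIntegral R (algebraMap R E c * θ)) (f : R[X]) (M : ℕ) (hM : f.natDegree ≤ M) :
    IsIntegral R (algebraMap R E (c ^ M) * aeval θ f) := by
  rw [aeval_eq_sum_range' (Nat.lt_succ_of_le hM), Finset.mul_sum]
  refine IsIntegral.sum _ fun i hi => ?_
  have hi' : i ≤ M := by
    have := Finset.mem_range.1 hi
    omega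
  have e : algebraMap R E (c ^ M) * (f.coeff i • θ ^ i) =
      algebraMap R E (f.coeff i * c ^ (M - i)) * (algebraMap R E c * θ) ^ i := by
    rw [Algebra.smul_def, mul_pow, ← map_pow (algebraMap R E) c i]
    have h1 : c ^ M = c ^ (M - i) * c ^ i := by rw [← pow_add]; congr 1; omega
    rw [h1, map_mul, map_mul]
    ring
  rw [e]
  exact isIntegral_algebraMap.mul (hθ.pow i)

theorem pair_frob (k) [Field k] [Algebra R k] [IsFractionRing R k] {ℓ n : ℕ} (hℓ : 0 < ℓ)
    {G f : R[X]} (hG : G.natDegree ≤ n) {d : R ⧸ m} (hd : d ≠ 0) {S : Finset (R ⧸ m)}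
    (hS : S.card = n) (hfac : G.map (Ideal.Quotient.mk m) = C d * ∏ x ∈ S, (X - C x))
    {c₁ c₂ : R ⧸ m} (h1 : c₁ ∈ S) (h2 : c₂ ∈ S)
    (hf1 : (f.map (Ideal.Quotient.mk m)).eval c₁ ≠ 0)
    (hf2 : (f.map (Ideal.Quotient.mk m)).eval c₂ ≠ 0)
    (hne : ∀ y, (f.map (Ideal.Quotient.mk m)).eval c₁ ≠
      y ^ ℓ * (f.map (Ideal.Quotient.mk m)).eval c₂)
    (E : Type) [Field E] [Algebra k E] [FiniteDimensional k E] [IsGalois k E]
    [IsSplittingField k E (G.map (algebraMap R k))] :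
    ∃ θ₁ θ₂ : (G.map (algebraMap R k)).rootSet E,
      aeval (θ₁ : E) (f.map (algebraMap R k)) ≠ 0 ∧ aeval (θ₂ : E) (f.map (algebraMap R k)) ≠ 0 ∧
      ∀ y : E, aeval (θ₁ : E) (f.map (algebraMap R k)) ≠
        y ^ ℓ * aeval (θ₂ : E) (f.map (algebraMap R k)) := by
  haveI : m.IsMaximal := inferInstance
  letI : Field (R ⧸ m) := Ideal.Quotient.field m
  letI : Algebra R E := ((algebraMap k E).comp (algebraMap R k)).toAlgebra
  haveI : IsScalarTower R k E := IsScalarTower.of_algebraMap_eq fun _ => rfl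
  obtain ⟨Gb, hGb⟩ : ∃ Gb, Gb = G.map (Ideal.Quotient.mk m) := ⟨_, rfl⟩
  have hfac' : Gb = C d * ∏ x ∈ S, (X - C x) := hGb.trans hfac
  have hdeg : Gb.natDegree = n := by
    rw [hfac', natDegree_C_mul hd, natDegree_finset_prod_X_sub_C_eq_card, hS]
  have hsep : Gb.Separable := by
    rw [hfac']
    have h3 : (∏ x ∈ S, (X - C x) : (R ⧸ m)[X]).Separable := by
      rw [separable_prod_X_sub_C_iff']
      exact fun x _ y _ h => h
    refine h3.of_dvd ⟨C d⁻¹, ?_⟩
    rw [mul_comm (C d), mul_assoc, ← C_mul, mul_inv_cancel₀ hd, C_1, mul_one]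
  have hspl : ((G.map (algebraMap R k)).map (algebraMap k E)).Splits :=
    IsSplittingField.splits E (G.map (algebraMap R k))
  obtain ⟨B, ρ, j, σ, hρ, hj, hσ, hlc, hθ, hpr⟩ := frob_roots m k hG (by rw [← hGb]; exact hdeg)
    (by rw [← hGb]; exact hsep) E hspl
  rw [← hGb] at hpr
  obtain ⟨q, hq⟩ : ∃ q, q = Nat.card (R ⧸ m) := ⟨_, rfl⟩
  -- the permutation of the roots
  have hZ : ∀ θ : (G.map (algebraMap R k)).rootSet E, aeval (θ : E) (G.map (algebraMap R k)) = 0 :=
    fun θ => aeval_eq_zero_of_mem_rootSet θ.2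
  let sp : Equiv.Perm ((G.map (algebraMap R k)).rootSet E) :=
    MulAction.toPermHom (E ≃ₐ[k] E) ((G.map (algebraMap R k)).rootSet E) σ
  have hsp : ∀ θ, ((sp θ : (G.map (algebraMap R k)).rootSet E) : E) = σ (θ : E) := fun θ => rfl
  have hr : ∀ θ, red B ((sp θ : (G.map (algebraMap R k)).rootSet E) : E) =
      red B (θ : E) ^ Nat.card (R ⧸ m) := fun θ => (hθ θ (hZ θ)).2.2
  have hinj := inj_of j hsep hpr
  -- all the roots are fixed
  have hfix : ∀ θ : (G.map (algebraMap R k)).rootSet E, σ (θ : E) = θ := by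
    intro θ
    have h3 : (Gb.map j).eval (red B (θ : E)) = 0 := (root_iff j hsep hpr _).2 ⟨θ, rfl⟩
    rw [hfac', Polynomial.map_mul, map_C, eval_mul, eval_C, Polynomial.map_prod, eval_prod,
      mul_eq_zero, Finset.prod_eq_zero_iff] at h3
    rcases h3 with h3 | ⟨c, hc, h3⟩
    · exact absurd h3 ((map_ne_zero j).2 hd)
    rw [Polynomial.map_sub, map_X, map_C, eval_sub, eval_X, eval_C, sub_eq_zero] at h3
    have h4 : sp θ = θ := by
      apply hinj
      show red B _ = red B _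
      rw [hr, h3]
      haveI := Fintype.ofFinite (R ⧸ m)
      show j c ^ Nat.card (R ⧸ m) = j c
      rw [← map_pow, Nat.card_eq_fintype_card, FiniteField.pow_card]
    rw [← hsp, h4]
  have hσ1 : ∀ y : E, σ y = y := by
    intro y
    have h4 : y ∈ Algebra.adjoin k ((G.map (algebraMap R k)).rootSet E) := by
      rw [IsSplittingField.adjoin_rootSet]
      trivial
    induction h4 using Algebra.adjoin_induction with
    | mem x hx => exact hfix ⟨x, hx⟩
    | algebraMap r => exact σ.commutes r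
    | add x y _ _ hx hy => rw [map_add, hx, hy]
    | mul x y _ _ hx hy => rw [map_mul, hx, hy]
  -- the two roots
  have hroot : ∀ c ∈ S, ∃ θ : (G.map (algebraMap R k)).rootSet E, red B (θ : E) = j c := by
    intro c hc
    apply (root_iff j hsep hpr _).1
    rw [hfac', Polynomial.map_mul, map_C, eval_mul, Polynomial.map_prod, eval_prod,
      Finset.prod_eq_zero hc, mul_zero]
    rw [Polynomial.map_sub, map_X, map_C, eval_sub, eval_X, eval_C, sub_self]
  obtain ⟨θ₁, hθ₁⟩ := hroot c₁ h1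
  obtain ⟨θ₂, hθ₂⟩ := hroot c₂ h2
  -- the values
  have hval : ∀ (θ : (G.map (algebraMap R k)).rootSet E) (c : R ⧸ m), red B (θ : E) = j c →
      aeval (θ : E) (f.map (algebraMap R k)) ∈ B ∧
      red B (aeval (θ : E) (f.map (algebraMap R k))) =
        j ((f.map (Ideal.Quotient.mk m)).eval c) := by
    intro θ c hc
    have hB : (θ : E) ∈ B := (hθ θ (hZ θ)).1
    have e1 : aeval (θ : E) (f.map (algebraMap R k)) = (((f.map ρ).eval ⟨(θ : E), hB⟩ : B) : E) := by
      have e2 : (((f.map ρ).eval ⟨(θ : E), hB⟩ : B) : E) =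
          ((f.map ρ).map (algebraMap B E)).eval (θ : E) :=
        (eval_map_apply (f := algebraMap B E) (p := f.map ρ) (x := ⟨(θ : E), hB⟩)).symm
      have e4 : (algebraMap B E).comp ρ = algebraMap R E := RingHom.ext hρ
      rw [e2, Polynomial.map_map, aeval_map_algebraMap, aeval_def, eval_map, e4]
    rw [e1]
    refine ⟨Subtype.coe_prop _, ?_⟩
    rw [red_coe]
    have e3 : residue B ((f.map ρ).eval ⟨(θ : E), hB⟩) =
        ((f.map ρ).map (residue B)).eval (residue B ⟨(θ : E), hB⟩) :=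
      (eval_map_apply (f := residue B) (p := f.map ρ) (x := ⟨(θ : E), hB⟩)).symm
    rw [e3, map_quot m ρ (residue B) j hj f, ← red_coe, hc, eval_map_apply]
  obtain ⟨b1, v1⟩ := hval θ₁ c₁ hθ₁
  obtain ⟨b2, v2⟩ := hval θ₂ c₂ hθ₂
  have n1 : aeval (θ₁ : E) (f.map (algebraMap R k)) ≠ 0 := by
    intro h0
    rw [h0] at v1
    have h5 : red B (0 : E) = 0 := by
      have := red_coe (0 : B)
      rw [map_zero] at this
      exact this
    rw [h5] at v1
    exact hf1 ((map_eq_zero j).1 v1.symm)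
  have n2 : aeval (θ₂ : E) (f.map (algebraMap R k)) ≠ 0 := by
    intro h0
    rw [h0] at v2
    have h5 : red B (0 : E) = 0 := by
      have := red_coe (0 : B)
      rw [map_zero] at this
      exact this
    rw [h5] at v2
    exact hf2 ((map_eq_zero j).1 v2.symm)
  refine ⟨θ₁, θ₂, n1, n2, ?_⟩
  intro y hy
  obtain ⟨w, hw⟩ : ∃ w, w = y * aeval (θ₂ : E) (f.map (algebraMap R k)) := ⟨_, rfl⟩
  have hwℓ : w ^ ℓ = aeval (θ₁ : E) (f.map (algebraMap R k)) *
      aeval (θ₂ : E) (f.map (algebraMap R k)) ^ (ℓ - 1) := by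
    rw [hw, mul_pow, hy]
    obtain ⟨t, rfl⟩ : ∃ t, ℓ = t + 1 := ⟨ℓ - 1, by omega⟩
    rw [Nat.add_sub_cancel, pow_succ (aeval (θ₂ : E) (f.map (algebraMap R k))) t]
    ring
  have hint : ∀ θ : (G.map (algebraMap R k)).rootSet E,
      IsIntegral R (algebraMap R E G.leadingCoeff * (θ : E)) := by
    intro θ
    have h3 := hZ θ
    rw [aeval_map_algebraMap] at h3
    have := isIntegral_leadingCoeff_smul G (θ : E) h3
    rwa [Algebra.smul_def] at this
  obtain ⟨a, ha⟩ : ∃ a, a = G.leadingCoeff ^ f.natDegree := ⟨_, rfl⟩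
  have ham : a ∉ m := by
    rw [ha]
    intro h
    exact hlc (Ideal.IsPrime.mem_of_pow_mem inferInstance _ h)
  have i1 : ∀ θ : (G.map (algebraMap R k)).rootSet E,
      IsIntegral R (algebraMap R E a * aeval (θ : E) (f.map (algebraMap R k))) := by
    intro θ
    rw [aeval_map_algebraMap, ha]
    exact int_aeval (hint θ) f _ le_rfl
  have hwi : IsIntegral R (algebraMap R E a * w) := by
    apply IsIntegral.of_pow hℓ
    have e : (algebraMap R E a * w) ^ ℓ =
        (algebraMap R E a * aeval (θ₁ : E) (f.map (algebraMap R k))) *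
        (algebraMap R E a * aeval (θ₂ : E) (f.map (algebraMap R k))) ^ (ℓ - 1) := by
      rw [mul_pow, hwℓ, mul_pow _ _ (ℓ - 1)]
      obtain ⟨t, rfl⟩ : ∃ t, ℓ = t + 1 := ⟨ℓ - 1, by omega⟩
      rw [Nat.add_sub_cancel, pow_succ (algebraMap R E a)]
      ring
    rw [e]
    exact (i1 θ₁).mul ((i1 θ₂).pow _)
  obtain ⟨w1, w2, w3⟩ := hσ a ham w hwi
  rw [hσ1] at w3
  obtain ⟨z, hz⟩ := fixed_mem j w3.symm
  have h6 : j (z ^ ℓ) = j ((f.map (Ideal.Quotient.mk m)).eval c₁ *
      (f.map (Ideal.Quotient.mk m)).eval c₂ ^ (ℓ - 1)) := by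
    rw [map_pow, hz, ← red_pow w1, hwℓ, red_mul b1 (pow_mem b2 _), red_pow b2, v1, v2, map_mul,
      map_pow]
  have h7 := j.injective h6
  refine hne (z / (f.map (Ideal.Quotient.mk m)).eval c₂) ?_
  rw [div_pow, h7]
  obtain ⟨t, rfl⟩ : ∃ t, ℓ = t + 1 := ⟨ℓ - 1, by omega⟩
  rw [Nat.add_sub_cancel, pow_succ]
  field_simp

end frob

end Pool.Agent.J6H65.SG
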