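import Pool.Agent.J6H65.SG.Fin
import Pool.Agent.R431.SG.CritL

/-!
The hypotheses of the criterion over extensions of the ground field.
-/

set_option autoImplicit false
set_option linter.all false

open Polynomial IsDedekindDomain
open scoped Classical

namespace Pool.Agent.J6H65.SG

open Pool.Agent.X243.Gen Pool.Agent.X243.Sol Pool.Agent.X243.Tate
open Pool.Agent.R431.SG (fs)

/-- The conditions on a tuple over the ground field. -/
structure Hyp {k : Type} [Field k] (ℓ N n : ℕ) (g : Fin (N + 1) → k[X]) : Prop where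
  f0 : FF n (g 0)
  fd : ∀ a b : Fin N, a < b → FF n (g a.succ - g b.succ)
  np : ∀ s : Fin N × Fin N → ℕ, (∀ q, ¬ q.1 < q.2 → s q = 0) → (∀ q, s q < ℓ) →
    (∃ q, s q ≠ 0) → NoPow ℓ (g 0) (fs s fun i => g i.succ)

section tup

variable {k : Type} [Field k] {L L' : Type} [Field L] [Field L'] [Algebra k L]
  [Algebra L L'] [Algebra k L'] [IsScalarTower k L L'] [IsSepClosure L L']

/-- The monic multiples of the differences. -/
noncomputable def dl {N : ℕ} (L : Type) [Field L] (g : Fin (N + 1) → L[X])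
    (q : Fin N × Fin N) : L[X] :=
  C (g q.1.succ - g q.2.succ).leadingCoeff⁻¹ * (g q.1.succ - g q.2.succ)

/-- The set of the monic multiples of the differences. -/
noncomputable def TT {N : ℕ} (L : Type) [Field L] (g : Fin (N + 1) → L[X]) : Finset L[X] :=
  (Finset.univ.filter fun q : Fin N × Fin N => q.1 < q.2).image (dl L g)

theorem mem_TT {N : ℕ} {g : Fin (N + 1) → L[X]} {π : L[X]} :
    π ∈ TT L g ↔ ∃ q : Fin N × Fin N, q.1 < q.2 ∧ dl L g q = π := by
  unfold TT
  rw [Finset.mem_image]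
  exact ⟨fun ⟨q, h1, h2⟩ => ⟨q, (Finset.mem_filter.1 h1).2, h2⟩,
    fun ⟨q, h1, h2⟩ => ⟨q, Finset.mem_filter.2 ⟨Finset.mem_univ _, h1⟩, h2⟩⟩

theorem dl_eq {N : ℕ} {g : Fin (N + 1) → L[X]} {q : Fin N × Fin N}
    (h : g q.1.succ - g q.2.succ ≠ 0) :
    g q.1.succ - g q.2.succ = C (g q.1.succ - g q.2.succ).leadingCoeff * dl L g q := by
  unfold dl
  rw [← mul_assoc, ← C_mul, mul_inv_cancel₀ (leadingCoeff_ne_zero.2 h), C_1, one_mul]

theorem dl_irr {N : ℕ} {g : Fin (N + 1) → L[X]} {q : Fin N × Fin N}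
    (h : Irreducible (g q.1.succ - g q.2.succ)) : Irreducible (dl L g q) ∧ (dl L g q).Monic := by
  have h0 : (g q.1.succ - g q.2.succ).leadingCoeff ≠ 0 := leadingCoeff_ne_zero.2 h.ne_zero
  refine ⟨?_, ?_⟩
  · unfold dl
    rw [irreducible_isUnit_mul (isUnit_C.2 (isUnit_iff_ne_zero.2 (inv_ne_zero h0)))]
    exact h
  · unfold dl Monic
    rw [leadingCoeff_mul, leadingCoeff_C, inv_mul_cancel₀ h0]

theorem hD5_L {ℓ N n : ℕ} (hℓ : ℓ.Prime) (hn : 5 ≤ n) {g : Fin (N + 1) → k[X]}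
    (H : Hyp ℓ N n g) (hk : (ℓ : k) ≠ 0) {ζ : k} (hζ : IsPrimitiveRoot ζ ℓ)
    (M : IntermediateField k L') [Normal k M]
    (hM : ∀ x : L, IsSeparable k x → algebraMap L L' x ∈ M)
    (hns : ¬ ((g 0).map (algebraMap k M)).Splits) {gL : Fin (N + 1) → L[X]}
    (hgL : ∀ i, gL i = (g i).map (algebraMap k L))
    (c : L) (a : L[X] → ℕ) (z : L[X]) (hc : c ≠ 0)
    (hz : gL 0 ∣ C c * ∏ π ∈ TT L gL, π ^ a π - z ^ ℓ) (π₀ : L[X]) (hπ₀ : π₀ ∈ TT L gL) :
    ℓ ∣ a π₀ := by
  haveI : IsSepClosed L' := IsSepClosure.sep_closed L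
  by_contra hnd
  obtain ⟨⟨-, hg0⟩, hsep, hfull⟩ := H.f0
  have hd0 : ∀ q : Fin N × Fin N, q.1 < q.2 → gL q.1.succ - gL q.2.succ ≠ 0 := by
    intro q hq h0
    have h1 : ((g q.1.succ - g q.2.succ).map (algebraMap k L)) = 0 := by
      rw [Polynomial.map_sub, ← hgL, ← hgL, h0]
    exact (H.fd _ _ hq).1.1.ne_zero ((Polynomial.map_eq_zero_iff (algebraMap k L).injective).1 h1)
  -- representatives
  have hrep : ∀ π : TT L gL, ∃ q : Fin N × Fin N, q.1 < q.2 ∧ dl L gL q = π := fun π =>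
    mem_TT.1 π.2
  choose rep hr1 hr2 using hrep
  obtain ⟨s, hs⟩ : ∃ s : Fin N × Fin N → ℕ, s = fun q =>
      if ∃ π : TT L gL, rep π = q then a (dl L gL q) % ℓ else 0 := ⟨_, rfl⟩
  have hinj : Function.Injective rep := by
    intro π π' h
    apply Subtype.ext
    rw [← hr2 π, ← hr2 π', h]
  have s1 : ∀ π : TT L gL, s (rep π) = a π % ℓ := by
    intro π
    rw [hs]
    dsimp only
    rw [if_pos ⟨π, rfl⟩, hr2]
  have s2 : ∀ q, (¬ ∃ π : TT L gL, rep π = q) → s q = 0 := by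
    intro q hq
    rw [hs]
    dsimp only
    rw [if_neg hq]
  have s3 : ∀ q, ¬ q.1 < q.2 → s q = 0 := by
    intro q hq
    apply s2
    rintro ⟨π, rfl⟩
    exact hq (hr1 π)
  have s4 : ∀ q, s q < ℓ := by
    intro q
    by_cases h : ∃ π : TT L gL, rep π = q
    · obtain ⟨π, rfl⟩ := h
      rw [s1]
      exact Nat.mod_lt _ hℓ.pos
    · rw [s2 q h]
      exact hℓ.pos
  have s5 : ∃ q, s q ≠ 0 := by
    refine ⟨rep ⟨π₀, hπ₀⟩, ?_⟩
    rw [s1]
    intro h0
    exact hnd (Nat.dvd_of_mod_eq_zero h0)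
  have hnp := H.np s s3 s4 s5
  obtain ⟨f, hf⟩ : ∃ f, f = fs s fun i => g i.succ := ⟨_, rfl⟩
  rw [← hf] at hnp
  -- the value of `f`
  obtain ⟨u, hu⟩ : ∃ u : L[X] → L, ∀ π : TT L gL,
      u π = (gL (rep π).1.succ - gL (rep π).2.succ).leadingCoeff := by
    refine ⟨fun π => if h : π ∈ TT L gL then
      (gL (rep ⟨π, h⟩).1.succ - gL (rep ⟨π, h⟩).2.succ).leadingCoeff else 0, fun π => ?_⟩
    dsimp only
    rw [dif_pos π.2]
  have hu0 : ∀ π : TT L gL, u π ≠ 0 := by
    intro π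
    rw [hu]
    exact leadingCoeff_ne_zero.2 (hd0 _ (hr1 π))
  have hfL : f.map (algebraMap k L) =
      ∏ π ∈ TT L gL, (C (u π) * π) ^ (a π % ℓ) := by
    have e1 : f.map (algebraMap k L) = ∏ q : Fin N × Fin N, (gL q.1.succ - gL q.2.succ) ^ s q := by
      rw [hf]
      unfold fs
      rw [Polynomial.map_prod]
      refine Finset.prod_congr rfl fun q _ => ?_
      rw [Polynomial.map_pow, Polynomial.map_sub, ← hgL, ← hgL]
    have e2 : ∏ π ∈ TT L gL, (C (u π) * π) ^ (a π % ℓ) =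
        ∏ π : TT L gL, (gL (rep π).1.succ - gL (rep π).2.succ) ^ s (rep π) := by
      rw [← Finset.prod_coe_sort]
      refine Finset.prod_congr rfl fun π _ => ?_
      rw [s1, hu]
      congr 1
      have := dl_eq (hd0 _ (hr1 π))
      rw [hr2] at this
      exact this.symm
    rw [e1, e2]
    symm
    rw [← Finset.prod_image (s := Finset.univ) (g := rep)
      (f := fun q => (gL q.1.succ - gL q.2.succ) ^ s q) (fun x _ y _ h => hinj h)]
    apply Finset.prod_subset (Finset.subset_univ _)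
    intro q _ hq
    rw [s2 q, pow_zero]
    rintro ⟨π, rfl⟩
    exact hq (Finset.mem_image_of_mem _ (Finset.mem_univ _))
  have hval : ∀ w : L', aeval w f = algebraMap L L' (∏ π ∈ TT L gL, u π ^ (a π % ℓ)) *
      ∏ π ∈ TT L gL, (aeval w π) ^ (a π % ℓ) := by
    intro w
    rw [← aeval_map_algebraMap L, hfL, map_prod, map_prod, ← Finset.prod_mul_distrib]
    refine Finset.prod_congr rfl fun π _ => ?_
    rw [map_pow, map_mul, aeval_C, map_pow, mul_pow]
  -- the values of the elements of `T`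
  have hne : ∀ w ∈ (g 0).rootSet L', aeval w f ≠ 0 :=
    fun w hw => ne_of_nopow hsep (by omega) hnp w hw
  have hπne : ∀ w ∈ (g 0).rootSet L', ∀ π ∈ TT L gL, aeval w π ≠ 0 := by
    intro w hw π hπ
    obtain ⟨q, hq, rfl⟩ := mem_TT.1 hπ
    have h1 : NoPow ℓ (g 0) (fs (fun q' => if q' = q then 1 else 0) fun i => g i.succ) := by
      refine H.np _ ?_ ?_ ⟨q, ?_⟩
      · intro q' hq'
        rw [if_neg]
        rintro rfl
        exact hq' hq
      · intro q'
        split_ifs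
        · exact hℓ.one_lt
        · exact hℓ.pos
      · rw [if_pos rfl]
        exact one_ne_zero
    have h2 := ne_of_nopow hsep (by omega) h1 w hw
    have h3 : (fs (fun q' => if q' = q then 1 else 0) fun i : Fin N => g i.succ) =
        g q.1.succ - g q.2.succ := by
      unfold fs
      rw [Finset.prod_eq_single q]
      · dsimp only
        rw [if_pos rfl, pow_one]
      · intro b _ hb
        dsimp only
        rw [if_neg hb, pow_zero]
      · intro h
        exact absurd (Finset.mem_univ _) h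
    rw [h3, ← aeval_map_algebraMap L, Polynomial.map_sub, ← hgL, ← hgL, dl_eq (hd0 q hq),
      map_mul] at h2
    exact right_ne_zero_of_mul h2
  obtain ⟨P, hP⟩ : ∃ P : L' → L', P = fun w => ∏ π ∈ TT L gL, (aeval w π) ^ (a π / ℓ) := ⟨_, rfl⟩
  have hP0 : ∀ w ∈ (g 0).rootSet L', P w ≠ 0 := by
    intro w hw
    rw [hP]
    exact Finset.prod_ne_zero_iff.2 fun π hπ => pow_ne_zero _ (hπne w hw π hπ)
  obtain ⟨c', hc'⟩ : ∃ c' : L, c' = (∏ π ∈ TT L gL, u π ^ (a π % ℓ)) / c := ⟨_, rfl⟩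
  have hcL : algebraMap L L' c ≠ 0 := (_root_.map_ne_zero _).2 hc
  have hzw : ∀ w ∈ (g 0).rootSet L', aeval w f =
      algebraMap L L' c' * (aeval w z / P w) ^ ℓ := by
    intro w hw
    obtain ⟨q, hq⟩ := hz
    have h1 := congrArg (aeval w) hq
    rw [map_mul, hgL, aeval_map_algebraMap, aeval_eq_zero_of_mem_rootSet hw, zero_mul, map_sub,
      map_mul, aeval_C, map_pow, map_prod, sub_eq_zero] at h1
    rw [div_pow, ← h1, hval, hc', map_div₀]
    have h2 : ∏ π ∈ TT L gL, aeval w (π ^ a π) = (∏ π ∈ TT L gL, (aeval w π) ^ (a π % ℓ)) *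
        P w ^ ℓ := by
      rw [hP]
      dsimp only
      rw [← Finset.prod_pow, ← Finset.prod_mul_distrib]
      refine Finset.prod_congr rfl fun π _ => ?_
      rw [map_pow, ← pow_mul, ← pow_add, mul_comm (a π / ℓ), Nat.mod_add_div]
    rw [h2]
    have h3 := pow_ne_zero ℓ (hP0 w hw)
    field_simp
  -- two roots
  have hspl : ((g 0).map (algebraMap k L')).Splits := IsSepClosed.splits_of_separable _ hsep.map
  have hcard : Fintype.card ((g 0).rootSet L') = (g 0).natDegree :=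
    card_rootSet_eq_natDegree hsep hspl
  obtain ⟨x, y, hxy⟩ : ∃ x y : (g 0).rootSet L', x ≠ y := by
    apply Fintype.exists_pair_of_one_lt_card
    omega
  have hcne := hne y.1 y.2
  rw [hzw y.1 y.2] at hcne
  have hc0' : algebraMap L L' c' ≠ 0 := left_ne_zero_of_mul hcne
  have hw2 : (aeval (y : L') z / P y) ^ ℓ ≠ 0 := right_ne_zero_of_mul hcne
  have hw3 : aeval (y : L') z / P y ≠ 0 := fun h => hw2 (by rw [h, zero_pow hℓ.ne_zero])
  obtain ⟨σ, h1, h2, h3⟩ := pair_L (L := L) (L' := L') hsep (by omega) hfull M hM hns hℓ.pos hk hζ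
    hnp x.2 y.2 (fun h => hxy (Subtype.ext h))
    (z := (aeval (x : L') z / P x) / (aeval (y : L') z / P y)) (by
      rw [hzw x.1 x.2, hzw y.1 y.2, div_pow (aeval (x : L') z / P x)]
      field_simp)
  apply h3
  have hσ : ∀ (w : L') (π : L[X]), σ w = w → σ (aeval w π) = aeval w π := by
    intro w π hw
    have := aeval_algHom_apply σ w π
    rw [hw] at this
    exact this.symm
  have hσP : ∀ w : L', σ w = w → σ (P w) = P w := by
    intro w hw
    rw [hP]
    dsimp only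
    rw [map_prod]
    refine Finset.prod_congr rfl fun π _ => ?_
    rw [map_pow, hσ w π hw]
  rw [map_div₀, map_div₀, map_div₀, hσ _ _ h1, hσ _ _ h2, hσP _ h1, hσP _ h2]

end tup

end Pool.Agent.J6H65.SG
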