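import Pool.Agent.X243.Gen.Main

/-!
Maximal ideals of finitely generated rings which do not contain a given element.
-/

set_option autoImplicit false
set_option linter.all false

open Polynomial
open scoped Classical

namespace Pool.Agent.J6H65.SG

open Pool.Agent.X243.Gen

/-- The maximal ideals with large residue fields which do not contain a given element. -/
def Zb (R : Type) [CommRing R] (β : R) (B : ℕ) : Set (Ideal R) :=
  {m | m.IsMaximal ∧ Finite (R ⧸ m) ∧ B ≤ Nat.card (R ⧸ m) ∧ β ∉ m}

theorem Zb_inf (R : Type) [CommRing R] [IsDomain R] [Algebra.FiniteType ℤ R] (hR : ¬ IsField R)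
    {β : R} (h3 : β ≠ 0) (B : ℕ) : (Zb R β B).Infinite := by
  intro hfin
  haveI := jacobson_int
  haveI : IsJacobsonRing R := isJacobsonRing_of_finiteType (A := ℤ)
  haveI : Infinite R := by
    by_contra h
    rw [not_infinite_iff_finite] at h
    exact hR (Finite.isField_of_domain R)
  -- an element in all the ideals with small residue fields
  obtain ⟨b, hb⟩ : ∃ b : R, ∏ q ∈ Finset.Ico 2 B, (b ^ q - b) ≠ 0 := by
    obtain ⟨P, hP⟩ : ∃ P : Polynomial R, P = ∏ q ∈ Finset.Ico 2 B,
      (Polynomial.X ^ q - Polynomial.X) := ⟨_, rfl⟩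
    have hP0 : P ≠ 0 := by
      rw [hP, Finset.prod_ne_zero_iff]
      intro q hq h0
      have hq2 := (Finset.mem_Ico.1 hq).1
      have h1 := congrArg (fun f : Polynomial R => f.coeff q) h0
      simp only [Polynomial.coeff_sub, Polynomial.coeff_X_pow_self, Polynomial.coeff_zero] at h1
      rw [Polynomial.coeff_X_of_ne_one (by omega), sub_zero] at h1
      exact one_ne_zero h1
    obtain ⟨b, hb⟩ := Infinite.exists_notMem_finset P.roots.toFinset
    refine ⟨b, fun h0 => hb ?_⟩
    rw [Multiset.mem_toFinset, Polynomial.mem_roots hP0, Polynomial.IsRoot.def, hP,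
      Polynomial.eval_prod]
    simp only [Polynomial.eval_sub, Polynomial.eval_pow, Polynomial.eval_X]
    exact h0
  have hne : ∀ m ∈ Zb R β B, ∃ x ∈ m, x ≠ 0 := by
    intro m hm
    have h1 : m ≠ ⊥ := by
      rintro rfl
      exact hR (Ring.isField_iff_maximal_bot.2 hm.1)
    obtain ⟨x, hx, hx0⟩ := Submodule.exists_mem_ne_zero_of_ne_bot h1
    exact ⟨x, hx, hx0⟩
  choose! x hx hx0 using hne
  obtain ⟨c, hc⟩ : ∃ c : R, c = β * (∏ q ∈ Finset.Ico 2 B, (b ^ q - b)) *
    ∏ m ∈ hfin.toFinset, x m := ⟨_, rfl⟩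
  have hc0 : c ≠ 0 := by
    rw [hc]
    refine mul_ne_zero (mul_ne_zero h3 hb) ?_
    rw [Finset.prod_ne_zero_iff]
    intro m hm
    exact hx0 m (hfin.mem_toFinset.1 hm)
  apply hc0
  have hall : ∀ m : Ideal R, m.IsMaximal → c ∈ m := by
    intro m hm
    haveI := hm
    haveI : Finite (R ⧸ m) := residue_finite R m
    by_cases h3 : β ∈ m
    · rw [hc]
      exact m.mul_mem_right _ (m.mul_mem_right _ h3)
    by_cases h4 : B ≤ Nat.card (R ⧸ m)
    · have h5 : m ∈ Zb R β B := ⟨hm, inferInstance, h4, h3⟩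
      rw [hc]
      refine m.mul_mem_left _ ?_
      rw [← Finset.mul_prod_erase _ _ (hfin.mem_toFinset.2 h5)]
      exact m.mul_mem_right _ (hx m h5)
    · rw [hc]
      refine m.mul_mem_right _ (m.mul_mem_left _ ?_)
      letI : Field (R ⧸ m) := Ideal.Quotient.field m
      letI := Fintype.ofFinite (R ⧸ m)
      have h5 : Nat.card (R ⧸ m) ∈ Finset.Ico 2 B := by
        rw [Finset.mem_Ico]
        refine ⟨?_, by omega⟩
        rw [Nat.card_eq_fintype_card]
        exact Fintype.one_lt_card
      rw [← Finset.mul_prod_erase _ _ h5]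
      refine m.mul_mem_right _ ?_
      rw [← Ideal.Quotient.eq, map_pow, Nat.card_eq_fintype_card, FiniteField.pow_card]
  have hJ : IsJacobsonRing R := inferInstance
  have hbot : (⊥ : Ideal R).jacobson = ⊥ := hJ.out Ideal.isRadical_bot
  have h6 : c ∈ (⊥ : Ideal R).jacobson := by
    rw [Ideal.jacobson, Ideal.mem_sInf]
    rintro m ⟨-, hm⟩
    exact hall m hm
  rw [hbot] at h6
  exact h6


end Pool.Agent.J6H65.SG
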